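import Mathlib
import Pool.Agent.N15.SF.All

/-!
# Surfaces in a slab on top of each other (helper548)

`up t G` is the translate of `G` by `t • vert`. If `F` is a surface in the slab of height `H`, `G`
one in the slab of height `K`, and the top boundary of `F` is the bottom boundary of `G`, then
`F ∪ up H G` is a surface in the slab of height `H + K`; Morse heights, the numbers of local extrema
and the homeomorphism types relative to the boundary are compatible with this.
-/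

set_option autoImplicit false

namespace Pool.Agent.U548.CC

open scoped ContDiff RealInnerProductSpace ENNReal NNReal Topology
open MeasureTheory Set Metric Filter
open Pool.Agent.Y503.RB Pool.Agent.N503.ML Pool.Agent.N15.RC Pool.Agent.N15.SF

theorem avt (x : E4) (t : ℝ) : (x + t • vert) 3 = x 3 + t := SH1.add_vert_three x t

theorem svt (x : E4) (t : ℝ) : (x - t • vert) 3 = x 3 - t := by
  have h := avt x (-t)
  rwa [neg_smul, ← sub_eq_add_neg, ← sub_eq_add_neg] at h

theorem ht_cont : Continuous fun x : E4 => x 3 :=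
  (EuclideanSpace.proj (3 : Fin 4) : E4 →L[ℝ] ℝ).continuous

/-- Vertical translate of a set. -/
def up (t : ℝ) (G : Set E4) : Set E4 := (fun x => x + t • vert) '' G

theorem mem_up {t : ℝ} {G : Set E4} {x : E4} : x ∈ up t G ↔ x - t • vert ∈ G := by
  constructor
  · rintro ⟨y, hy, rfl⟩
    show y + t • vert - t • vert ∈ G
    rwa [add_sub_cancel_right]
  · intro h
    exact ⟨_, h, sub_add_cancel _ _⟩

theorem up_eq_preimage (t : ℝ) (G : Set E4) : up t G = (fun x => x - t • vert) ⁻¹' G := by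
  ext x
  exact mem_up

theorem isOpen_up {t : ℝ} {G : Set E4} (h : IsOpen G) : IsOpen (up t G) := by
  rw [up_eq_preimage]
  exact h.preimage (by fun_prop)

theorem isCompact_up {t : ℝ} {G : Set E4} (h : IsCompact G) : IsCompact (up t G) :=
  h.image (by fun_prop)

theorem up_up (s t : ℝ) (G : Set E4) : up s (up t G) = up (t + s) G := by
  ext x
  rw [mem_up, mem_up, mem_up]
  have : x - s • vert - t • vert = x - (t + s) • vert := by
    rw [add_smul]; abel
  rw [this]

theorem up_zero (G : Set E4) : up 0 G = G := by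
  ext x
  rw [mem_up, zero_smul, sub_zero]

theorem up_inter (t : ℝ) (G G' : Set E4) : up t (G ∩ G') = up t G ∩ up t G' := by
  ext x
  rw [mem_inter_iff, mem_up, mem_up, mem_up, mem_inter_iff]

/-- Translated patches. -/
theorem epatch_add {φ : ℂ → E4} {U : Set ℂ} (h : EPatch φ U) (c : E4) :
    EPatch (fun w => φ w + c) U := by
  refine ⟨h.isOpen, h.smooth.add contDiffOn_const, fun z hz => ?_, ?_⟩
  · have : fderiv ℝ (fun w => φ w + c) z = fderiv ℝ φ z := fderiv_add_const c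
    rw [this]
    exact h.imm z hz
  · exact (Homeomorph.addRight c).isEmbedding.comp h.emb

theorem up_image (t : ℝ) (φ : ℂ → E4) (U : Set ℂ) :
    up t (φ '' U) = (fun w => φ w + t • vert) '' U := by
  unfold up
  rw [image_image]

/-- `F` is vertical near the level `a`. -/
def VertAt (F : Set E4) (a : ℝ) : Prop :=
  ∃ ε : ℝ, 0 < ε ∧ ∀ x : E4, |x 3 - a| ≤ ε → (x ∈ F ↔ x + (a - x 3) • vert ∈ F)

/-- The lower part of a surface. -/
def lo (F : Set E4) (a : ℝ) : Set E4 := F ∩ {x | x 3 ≤ a}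

/-- The upper part of a surface, translated to the level zero. -/
def hi (F : Set E4) (a : ℝ) : Set E4 := up (-a) (F ∩ {x | a ≤ x 3})

theorem mem_hi {F : Set E4} {a : ℝ} {x : E4} : x ∈ hi F a ↔ x + a • vert ∈ F ∧ 0 ≤ x 3 := by
  unfold hi
  rw [mem_up, neg_smul, sub_neg_eq_add, mem_inter_iff]
  constructor
  · rintro ⟨h1, h2⟩
    refine ⟨h1, ?_⟩
    have h3 : a ≤ (x + a • vert) 3 := h2
    rw [avt] at h3
    linarith
  · rintro ⟨h1, h2⟩
    refine ⟨h1, ?_⟩
    show a ≤ (x + a • vert) 3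
    rw [avt]
    linarith

theorem lo_union_hi (F : Set E4) (a : ℝ) : lo F a ∪ up a (hi F a) = F := by
  ext x
  rw [mem_union, mem_up, mem_hi, sub_add_cancel, svt]
  constructor
  · rintro (h | h)
    · exact h.1
    · exact h.1
  · intro h
    rcases le_total (x 3) a with h1 | h1
    · exact Or.inl ⟨h, h1⟩
    · exact Or.inr ⟨h, by linarith⟩

theorem mem_slab {H : ℝ} {x : E4} : x ∈ slab H ↔ 0 ≤ x 3 ∧ x 3 ≤ H := Iff.rfl

theorem mem_oslab {H : ℝ} {x : E4} : x ∈ oslab H ↔ 0 < x 3 ∧ x 3 < H := Iff.rfl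

theorem cob_lo {F : Set E4} {H a : ℝ} (hF : Cob F H) (ha : 0 < a) (haH : a < H)
    (hv : VertAt F a) : Cob (lo F a) a := by
  obtain ⟨ε, hε, hεH, hc1, -⟩ := hF.collar
  obtain ⟨ε', hε', hc⟩ := hv
  refine ⟨?_, ?_, ?_, ?_⟩
  · exact hF.compact.inter_right (isClosed_le ht_cont continuous_const)
  · rintro x ⟨hx, hxa⟩
    exact ⟨(hF.sub hx).1, hxa⟩
  · rintro p ⟨hp, hpa⟩
    obtain ⟨φ, U, V, hP, hV, hpV, hFV⟩ := hF.loc p hp
    refine ⟨φ, U, V, hP, hV, hpV, ?_⟩
    ext x
    constructor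
    · rintro ⟨⟨h1, h2⟩, h3⟩
      have h4 : x ∈ F ∩ V := ⟨h1, h3⟩
      rw [hFV] at h4
      exact ⟨h4.1, h4.2.1, h2⟩
    · rintro ⟨h1, h2, h3⟩
      have h4 : x ∈ F ∩ V := by
        rw [hFV]
        exact ⟨h1, h2, h3.trans haH.le⟩
      exact ⟨⟨h4.1, h3⟩, h4.2⟩
  · obtain ⟨δ, hδ⟩ : ∃ δ, δ = min (min ε ε') (a / 2) := ⟨_, rfl⟩
    have e1 : δ ≤ ε := by rw [hδ]; exact (min_le_left _ _).trans (min_le_left _ _)
    have e2 : δ ≤ ε' := by rw [hδ]; exact (min_le_left _ _).trans (min_le_right _ _)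
    have e3 : δ ≤ a / 2 := by rw [hδ]; exact min_le_right _ _
    have e0 : 0 < δ := by rw [hδ]; exact lt_min (lt_min hε hε') (by linarith)
    refine ⟨δ, e0, by linarith, ?_, ?_⟩
    · intro x h0 h1
      have h2 := hc1 x h0 (h1.trans e1)
      have h3 : (x - (x 3) • vert) 3 = 0 := by rw [svt, sub_self]
      constructor
      · rintro ⟨h4, -⟩
        exact ⟨h2.1 h4, by show (x - (x 3) • vert) 3 ≤ a; rw [h3]; exact ha.le⟩
      · rintro ⟨h4, -⟩
        exact ⟨h2.2 h4, by show x 3 ≤ a; linarith⟩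
    · intro x h0 h1
      have h2 := hc x (by rw [abs_le]; constructor <;> linarith)
      have h3 : (x + (a - x 3) • vert) 3 = a := by rw [avt]; ring
      constructor
      · rintro ⟨h4, -⟩
        exact ⟨h2.1 h4, by show (x + (a - x 3) • vert) 3 ≤ a; rw [h3]⟩
      · rintro ⟨h4, -⟩
        exact ⟨h2.2 h4, h1⟩

theorem cob_hi {F : Set E4} {H a : ℝ} (hF : Cob F H) (ha : 0 < a) (haH : a < H)
    (hv : VertAt F a) : Cob (hi F a) (H - a) := by
  obtain ⟨ε, hε, hεH, -, hc1⟩ := hF.collar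
  obtain ⟨ε', hε', hc⟩ := hv
  refine ⟨?_, ?_, ?_, ?_⟩
  · exact isCompact_up (hF.compact.inter_right (isClosed_le continuous_const ht_cont))
  · intro x hx
    rw [mem_hi] at hx
    have h1 := (hF.sub hx.1).2
    rw [avt] at h1
    exact ⟨hx.2, by linarith⟩
  · intro p hp
    rw [mem_hi] at hp
    obtain ⟨φ, U, V, hP, hV, hpV, hFV⟩ := hF.loc _ hp.1
    refine ⟨fun w => φ w + (-a) • vert, U, up (-a) V, epatch_add hP _, isOpen_up hV, ?_, ?_⟩
    · rw [mem_up, neg_smul, sub_neg_eq_add]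
      exact hpV
    · ext x
      rw [← up_image, mem_inter_iff, mem_inter_iff, mem_hi, mem_up, mem_up, neg_smul,
        sub_neg_eq_add, mem_slab]
      constructor
      · rintro ⟨⟨h1, h2⟩, h3⟩
        have h4 : x + a • vert ∈ F ∩ V := ⟨h1, h3⟩
        rw [hFV] at h4
        have h5 := h4.2.2
        rw [avt] at h5
        exact ⟨h4.1, h2, by linarith⟩
      · rintro ⟨h1, h2, h3⟩
        have h4 : x + a • vert ∈ F ∩ V := by
          rw [hFV]
          refine ⟨h1, ?_, ?_⟩
          · rw [avt]; linarith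
          · rw [avt]; linarith
        exact ⟨⟨h4.1, h2⟩, h4.2⟩
  · obtain ⟨δ, hδ⟩ : ∃ δ, δ = min (min ε ε') ((H - a) / 2) := ⟨_, rfl⟩
    have e1 : δ ≤ ε := by rw [hδ]; exact (min_le_left _ _).trans (min_le_left _ _)
    have e2 : δ ≤ ε' := by rw [hδ]; exact (min_le_left _ _).trans (min_le_right _ _)
    have e3 : δ ≤ (H - a) / 2 := by rw [hδ]; exact min_le_right _ _
    have e0 : 0 < δ := by rw [hδ]; exact lt_min (lt_min hε hε') (by linarith)
    refine ⟨δ, e0, by linarith, ?_, ?_⟩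
    · intro x h0 h1
      have h2 := hc (x + a • vert) (by rw [avt, abs_le]; constructor <;> linarith)
      rw [mem_hi, mem_hi, h2, avt, svt]
      have h3 : x + a • vert + (a - (x 3 + a)) • vert = x - (x 3) • vert + a • vert := by
        rw [show a - (x 3 + a) = -(x 3) by ring, neg_smul]; abel
      rw [h3]
      constructor
      · rintro ⟨h4, -⟩
        exact ⟨h4, by linarith⟩
      · rintro ⟨h4, -⟩
        exact ⟨h4, h0⟩
    · intro x h0 h1
      have h2 := hc1 (x + a • vert) (by rw [avt]; linarith) (by rw [avt]; linarith)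
      rw [mem_hi, mem_hi, h2, avt, avt]
      have h3 : x + a • vert + (H - (x 3 + a)) • vert = x + (H - a - x 3) • vert + a • vert := by
        rw [show H - (x 3 + a) = H - a - x 3 by ring]; abel
      rw [h3]
      constructor
      · rintro ⟨h4, -⟩
        exact ⟨h4, by linarith⟩
      · rintro ⟨h4, -⟩
        exact ⟨h4, by linarith⟩

/-- The top boundary of `F` is the bottom boundary of `G`. -/
def Match (F : Set E4) (H : ℝ) (G : Set E4) : Prop :=
  F ∩ {x | x 3 = H} = up H (G ∩ {x | x 3 = 0})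

theorem match_lo_hi {F : Set E4} {a : ℝ} : Match (lo F a) a (hi F a) := by
  unfold Match
  ext x
  rw [mem_up, mem_inter_iff, mem_inter_iff, mem_hi, sub_add_cancel]
  constructor
  · rintro ⟨⟨h1, -⟩, h2⟩
    have h2' : x 3 = a := h2
    have h3 : (x - a • vert) 3 = 0 := by rw [svt, h2', sub_self]
    exact ⟨⟨h1, h3.ge⟩, h3⟩
  · rintro ⟨⟨h1, -⟩, h2⟩
    have h2' : (x - a • vert) 3 = 0 := h2
    rw [svt] at h2'
    have h3 : x 3 = a := by linarith
    exact ⟨⟨h1, h3.le⟩, h3⟩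

theorem Match.iff {F : Set E4} {H : ℝ} {G : Set E4} (h : Match F H G) {x : E4} (hx : x 3 = H) :
    x ∈ F ↔ x - H • vert ∈ G := by
  have h1 : x ∈ F ∩ {x | x 3 = H} ↔ x ∈ up H (G ∩ {x | x 3 = 0}) := by rw [h]
  rw [mem_up] at h1
  constructor
  · intro h2
    exact (h1.1 ⟨h2, hx⟩).1
  · intro h2
    refine (h1.2 ⟨h2, ?_⟩).1
    show (x - H • vert) 3 = 0
    rw [svt, hx, sub_self]

section glue

variable {F G : Set E4} {H K : ℝ}

theorem Cob.pos (hF : Cob F H) : 0 < H := by
  obtain ⟨ε, h1, h2, -⟩ := hF.collar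
  exact h1.trans h2

theorem below (hG : Cob G K) (hm : Match F H G) {x : E4} (hx : x 3 ≤ H) :
    x ∈ F ∪ up H G ↔ x ∈ F := by
  constructor
  · rintro (h | h)
    · exact h
    · rw [mem_up] at h
      have h1 := (hG.sub h).1
      rw [svt] at h1
      exact (hm.iff (le_antisymm hx (by linarith))).2 h
  · exact Or.inl

theorem above (hF : Cob F H) (hm : Match F H G) {x : E4} (hx : H ≤ x 3) :
    x ∈ F ∪ up H G ↔ x - H • vert ∈ G := by
  constructor
  · rintro (h | h)
    · exact (hm.iff (le_antisymm (hF.sub h).2 hx)).1 h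
    · exact mem_up.1 h
  · intro h
    exact Or.inr (mem_up.2 h)

/-- The union is vertical near the seam. -/
theorem glue_vert (hF : Cob F H) (hG : Cob G K) (hm : Match F H G) :
    ∃ ε : ℝ, 0 < ε ∧ ε < H ∧ ε < K ∧ ∀ x : E4, |x 3 - H| ≤ ε →
      (x ∈ F ∪ up H G ↔ x + (H - x 3) • vert ∈ F) := by
  obtain ⟨ε, hε, hεH, -, hc1⟩ := hF.collar
  obtain ⟨ε', hε', hεK, hc2, -⟩ := hG.collar
  refine ⟨min ε ε', lt_min hε hε', (min_le_left _ _).trans_lt hεH,
    (min_le_right _ _).trans_lt hεK, fun x hx => ?_⟩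
  obtain ⟨h1, h2⟩ := abs_le.1 hx
  have e1 := min_le_left ε ε'
  have e2 := min_le_right ε ε'
  rcases le_total (x 3) H with h | h
  · rw [below hG hm h]
    exact hc1 x (by linarith) h
  · rw [above hF hm h, hc2 _ (by rw [svt]; linarith) (by rw [svt]; linarith), svt]
    have h3 : (x + (H - x 3) • vert) 3 = H := by rw [avt]; ring
    rw [hm.iff h3]
    have h4 : x - H • vert - (x 3 - H) • vert = x + (H - x 3) • vert - H • vert := by
      rw [show H - x 3 = -(x 3 - H) by ring, neg_smul]; abel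
    rw [h4]

/-- A patch of the union at a point of the seam, and the vertical direction. -/
theorem seam_patch (hF : Cob F H) (hG : Cob G K) (hm : Match F H G) {p : E4} (hp : p ∈ F)
    (hp3 : p 3 = H) : ∃ (φ : ℂ → E4) (U : Set ℂ) (V : Set E4) (z : ℂ), EPatch φ U ∧ IsOpen V ∧
      p ∈ V ∧ V ⊆ oslab (H + K) ∧ (F ∪ up H G) ∩ V = φ '' U ∧ z ∈ U ∧ φ z = p ∧
      ∃ v : ℂ, d1 φ v z = vert := by
  obtain ⟨ε, hε, hεH, hεK, hc⟩ := glue_vert hF hG hm
  obtain ⟨δ, hδ⟩ : ∃ δ, δ = ε / 2 := ⟨_, rfl⟩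
  have hδ0 : 0 < δ := by rw [hδ]; linarith
  have key : ∀ y : E4, |y 3 + δ - H| ≤ ε → |y 3 - H| ≤ ε →
      (y + δ • vert ∈ F ∪ up H G ↔ y ∈ F ∪ up H G) := by
    intro y h1 h2
    rw [hc y h2, hc (y + δ • vert) (by rw [avt]; exact h1), avt]
    have : y + δ • vert + (H - (y 3 + δ)) • vert = y + (H - y 3) • vert := by
      rw [add_assoc, ← add_smul]
      congr 2
      ring
    rw [this]
  have hq3 : (p - δ • vert) 3 = H - δ := by rw [svt, hp3]
  have hq : p - δ • vert ∈ F := by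
    have h1 := key (p - δ • vert) (by rw [hq3, abs_le]; constructor <;> linarith)
      (by rw [hq3, abs_le]; constructor <;> linarith)
    rw [sub_add_cancel, below hG hm hp3.le, below hG hm (by rw [hq3]; linarith)] at h1
    exact h1.1 hp
  obtain ⟨φ, U, V, hP, hV, hpV, hFV⟩ := hF.loc _ hq
  -- restrict to the open slab between `H - ε` and `H`
  obtain ⟨W, hW⟩ : ∃ W : Set E4, W = {x | H - ε < x 3 ∧ x 3 < H} := ⟨_, rfl⟩
  have hWo : IsOpen W := by
    rw [hW]
    exact (isOpen_lt continuous_const ht_cont).inter (isOpen_lt ht_cont continuous_const)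
  have hU' : IsOpen (U ∩ φ ⁻¹' W) := hP.smooth.continuousOn.isOpen_inter_preimage hP.isOpen hWo
  have hqW : p - δ • vert ∈ W := by
    rw [hW]
    show H - ε < (p - δ • vert) 3 ∧ (p - δ • vert) 3 < H
    rw [hq3]
    constructor <;> linarith
  have hFW : F ∩ (V ∩ W) = φ '' (U ∩ φ ⁻¹' W) := by
    rw [← inter_assoc, hFV]
    ext x
    constructor
    · rintro ⟨⟨⟨z, hz, rfl⟩, -⟩, hx⟩
      exact ⟨z, ⟨hz, hx⟩, rfl⟩
    · rintro ⟨z, ⟨hz, hx⟩, rfl⟩
      refine ⟨⟨⟨z, hz, rfl⟩, ?_⟩, hx⟩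
      have h1 : φ z ∈ W := hx
      rw [hW] at h1
      obtain ⟨h2, h3⟩ := h1
      exact ⟨by linarith, h3.le⟩
  have hFu : (F ∪ up H G) ∩ up δ (V ∩ W) = (fun w => φ w + δ • vert) '' (U ∩ φ ⁻¹' W) := by
    rw [← up_image, ← hFW]
    ext x
    rw [mem_inter_iff, mem_up, mem_up, mem_inter_iff]
    constructor
    · rintro ⟨h1, h2⟩
      have h3 := h2.2
      rw [hW] at h3
      obtain ⟨h4, h5⟩ := h3
      have h6 := key (x - δ • vert)
        (by rw [svt, abs_le]; rw [svt] at h4 h5; constructor <;> linarith)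
        (by rw [abs_le]; constructor <;> linarith)
      rw [sub_add_cancel, below hG hm h5.le] at h6
      exact ⟨h6.1 h1, h2⟩
    · rintro ⟨h1, h2⟩
      have h3 := h2.2
      rw [hW] at h3
      obtain ⟨h4, h5⟩ := h3
      have h6 := key (x - δ • vert)
        (by rw [svt, abs_le]; rw [svt] at h4 h5; constructor <;> linarith)
        (by rw [abs_le]; constructor <;> linarith)
      rw [sub_add_cancel, below hG hm h5.le] at h6
      exact ⟨h6.2 h1, h2⟩
  have hz : ∃ z ∈ U ∩ φ ⁻¹' W, φ z = p - δ • vert := by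
    have h1 : p - δ • vert ∈ F ∩ (V ∩ W) := ⟨hq, hpV, hqW⟩
    rw [hFW] at h1
    exact h1
  obtain ⟨z, hz, hzp⟩ := hz
  have hPr : EPatch (fun w => φ w + δ • vert) (U ∩ φ ⁻¹' W) :=
    epatch_add (hP.restrict hU' inter_subset_left) _
  have hz' : (fun w => φ w + δ • vert) z = p := by
    show φ z + δ • vert = p
    rw [hzp, sub_add_cancel]
  refine ⟨fun w => φ w + δ • vert, U ∩ φ ⁻¹' W, up δ (V ∩ W), z, hPr, isOpen_up (hV.inter hWo),
    mem_up.2 ⟨hpV, hqW⟩, ?_, hFu, hz, hz', ?_⟩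
  · intro x hx
    rw [mem_up] at hx
    have h3 := hx.2
    rw [hW] at h3
    obtain ⟨h4, h5⟩ := h3
    rw [svt] at h4 h5
    constructor
    · linarith
    · linarith
  · refine tan_of_segment hPr hz ?_
    have hz2 : φ z + δ • vert = p := hz'
    rw [← hFu, hz2]
    have hγ : Tendsto (fun t : ℝ => p + t • vert) (𝓝 0) (𝓝 p) := by
      have : ContinuousAt (fun t : ℝ => p + t • vert) 0 := by fun_prop
      have h2 := this.tendsto
      simpa using h2
    have hVt : ∀ᶠ t in 𝓝 (0 : ℝ), p + t • vert ∈ up δ (V ∩ W) :=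
      hγ.eventually ((isOpen_up (hV.inter hWo)).mem_nhds (mem_up.2 ⟨hpV, hqW⟩))
    have ht1 : ∀ᶠ t in 𝓝 (0 : ℝ), -ε < t := eventually_gt_nhds (by linarith)
    have ht2 : ∀ᶠ t in 𝓝 (0 : ℝ), t < ε := eventually_lt_nhds hε
    filter_upwards [hVt, ht1, ht2] with t h3 h4 h5
    refine ⟨?_, h3⟩
    rw [hc _ (by rw [avt, hp3, abs_le]; constructor <;> linarith), avt, hp3]
    have : p + t • vert + (H - (H + t)) • vert = p := by
      rw [show H - (H + t) = -t by ring, neg_smul, add_neg_cancel_right]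
    rw [this]
    exact hp

theorem cob_glue (hF : Cob F H) (hG : Cob G K) (hm : Match F H G) :
    Cob (F ∪ up H G) (H + K) := by
  have hH := Cob.pos hF
  have hK := Cob.pos hG
  refine ⟨hF.compact.union (isCompact_up hG.compact), ?_, ?_, ?_⟩
  · rintro x (hx | hx)
    · have h := hF.sub hx
      exact ⟨h.1, h.2.trans (by linarith)⟩
    · rw [mem_up] at hx
      have h := hG.sub hx
      obtain ⟨h1, h2⟩ := h
      rw [svt] at h1 h2
      exact ⟨by linarith, by linarith⟩
  · intro p hp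
    rcases lt_trichotomy (p 3) H with h | h | h
    · rw [below hG hm h.le] at hp
      obtain ⟨φ, U, V, hP, hV, hpV, hFV⟩ := hF.loc p hp
      have hoH : IsOpen {x : E4 | x 3 < H} := isOpen_lt ht_cont continuous_const
      refine ⟨φ, U ∩ φ ⁻¹' {x | x 3 < H}, V ∩ {x | x 3 < H}, hP.restrict
        (hP.smooth.continuousOn.isOpen_inter_preimage hP.isOpen hoH) inter_subset_left,
        hV.inter hoH, ⟨hpV, h⟩, ?_⟩
      ext x
      constructor
      · rintro ⟨hx1, hx2, hx3⟩
        have hx3' : x 3 < H := hx3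
        rw [below hG hm hx3'.le] at hx1
        have h1 : x ∈ F ∩ V := ⟨hx1, hx2⟩
        rw [hFV] at h1
        obtain ⟨⟨z, hz, rfl⟩, h2⟩ := h1
        exact ⟨⟨z, ⟨hz, hx3⟩, rfl⟩, h2.1, h2.2.trans (by linarith)⟩
      · rintro ⟨⟨z, ⟨hz, hz2⟩, rfl⟩, h2, h3⟩
        have hz2' : φ z 3 < H := hz2
        have h1 : φ z ∈ F ∩ V := by
          rw [hFV]
          exact ⟨⟨z, hz, rfl⟩, h2, hz2'.le⟩
        exact ⟨Or.inl h1.1, h1.2, hz2⟩
    · rw [below hG hm h.le] at hp
      obtain ⟨φ, U, V, z, hP, hV, hpV, hVs, hFV, -, -, -⟩ := seam_patch hF hG hm hp h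
      refine ⟨φ, U, V, hP, hV, hpV, ?_⟩
      rw [hFV]
      refine (inter_eq_left.2 ?_).symm
      rw [← hFV]
      rintro x ⟨-, hx⟩
      have h1 := hVs hx
      exact ⟨h1.1.le, h1.2.le⟩
    · rw [above hF hm h.le] at hp
      obtain ⟨φ, U, V, hP, hV, hpV, hFV⟩ := hG.loc _ hp
      have hoH : IsOpen {x : E4 | 0 < x 3} := isOpen_lt continuous_const ht_cont
      refine ⟨fun w => φ w + H • vert, U ∩ φ ⁻¹' {x | 0 < x 3}, up H (V ∩ {x | 0 < x 3}),
        epatch_add (hP.restrict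
          (hP.smooth.continuousOn.isOpen_inter_preimage hP.isOpen hoH) inter_subset_left) _,
        isOpen_up (hV.inter hoH), mem_up.2 ⟨hpV, ?_⟩, ?_⟩
      · show 0 < (p - H • vert) 3
        rw [svt]; linarith
      · rw [← up_image]
        ext x
        constructor
        · rintro ⟨hx1, hx2⟩
          rw [mem_up] at hx2
          obtain ⟨hx2, hx3⟩ := hx2
          have hx3' : 0 < (x - H • vert) 3 := hx3
          rw [svt] at hx3'
          rw [above hF hm (by linarith)] at hx1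
          have h1 : x - H • vert ∈ G ∩ V := ⟨hx1, hx2⟩
          rw [hFV] at h1
          obtain ⟨⟨z, hz, hzx⟩, h2⟩ := h1
          refine ⟨mem_up.2 ⟨z, ⟨hz, ?_⟩, hzx⟩, ?_, ?_⟩
          · show φ z ∈ {x : E4 | 0 < x 3}
            rw [hzx]; exact hx3
          · linarith
          · have h3 := h2.2
            rw [svt] at h3
            linarith
        · rintro ⟨hx1, hx2, hx3⟩
          rw [mem_up] at hx1
          obtain ⟨z, ⟨hz, hz2⟩, hzx⟩ := hx1
          have hz2' : 0 < φ z 3 := hz2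
          have h1 : φ z ∈ G ∩ V := by
            rw [hFV]
            refine ⟨⟨z, hz, rfl⟩, hz2'.le, ?_⟩
            rw [hzx, svt]; linarith
          rw [hzx] at h1 hz2'
          exact ⟨Or.inr (mem_up.2 h1.1), mem_up.2 ⟨h1.2, hz2'⟩⟩
  · obtain ⟨ε, hε, hεH, hc1, -⟩ := hF.collar
    obtain ⟨ε', hε', hεK, -, hc2⟩ := hG.collar
    have e1 := min_le_left ε ε'
    have e2 := min_le_right ε ε'
    refine ⟨min ε ε', lt_min hε hε', by linarith, ?_, ?_⟩
    · intro x h0 h1
      rw [below hG hm (by linarith), below hG hm (by rw [svt]; linarith)]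
      exact hc1 x h0 (by linarith)
    · intro x h0 h1
      rw [above hF hm (by linarith), above hF hm (by rw [avt]; linarith)]
      have h2 := hc2 (x - H • vert) (by rw [svt]; linarith) (by rw [svt]; linarith)
      rw [h2, svt]
      have h3 : x - H • vert + (K - (x 3 - H)) • vert = x + (H + K - x 3) • vert - H • vert := by
        rw [show K - (x 3 - H) = H + K - x 3 by ring]; abel
      rw [h3]

theorem morse_glue (hF : Cob F H) (hG : Cob G K) (hm : Match F H G) (h1 : MorseF F H)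
    (h2 : MorseF G K) : MorseF (F ∪ up H G) (H + K) := by
  rintro p ⟨hp, hp0, hpH⟩
  rcases lt_trichotomy (p 3) H with h | h | h
  · rw [below hG hm h.le] at hp
    obtain ⟨φ, U, V, z, hP, hV, hpV, hFV, hz, hzp, hM⟩ := h1 p ⟨hp, hp0, h⟩
    have hoH : IsOpen {x : E4 | x 3 < H} := isOpen_lt ht_cont continuous_const
    refine ⟨φ, U ∩ φ ⁻¹' {x | x 3 < H}, V ∩ {x | x 3 < H}, z, hP.restrict
      (hP.smooth.continuousOn.isOpen_inter_preimage hP.isOpen hoH) inter_subset_left,
      hV.inter hoH, ⟨hpV, h⟩, ?_, ⟨hz, ?_⟩, hzp, hM⟩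
    · ext x
      constructor
      · rintro ⟨hx1, hx2, hx3⟩
        have hx3' : x 3 < H := hx3
        rw [below hG hm hx3'.le] at hx1
        have h3 : x ∈ F ∩ V := ⟨hx1, hx2⟩
        rw [hFV] at h3
        obtain ⟨w, hw, rfl⟩ := h3
        exact ⟨w, ⟨hw, hx3⟩, rfl⟩
      · rintro ⟨w, ⟨hw, hw2⟩, rfl⟩
        have h3 : φ w ∈ F ∩ V := by
          rw [hFV]
          exact ⟨w, hw, rfl⟩
        exact ⟨Or.inl h3.1, h3.2, hw2⟩
    · show φ z ∈ {x : E4 | x 3 < H}
      rw [hzp]
      exact h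
  · rw [below hG hm h.le] at hp
    obtain ⟨φ, U, V, z, hP, hV, hpV, hVs, hFV, hz, hzp, v, hv⟩ := seam_patch hF hG hm hp h
    refine ⟨φ, U, V, z, hP, hV, hpV, hFV, hz, hzp, fun h0 => ?_⟩
    exfalso
    have hd : DifferentiableAt ℝ φ z :=
      (hP.smooth.contDiffAt (hP.isOpen.mem_nhds hz)).differentiableAt (by simp)
    have h3 : HasFDerivAt (fun w => φ w 3)
        ((EuclideanSpace.proj (3 : Fin 4) : E4 →L[ℝ] ℝ).comp (fderiv ℝ φ z)) z :=
      (EuclideanSpace.proj (3 : Fin 4) : E4 →L[ℝ] ℝ).hasFDerivAt.comp z hd.hasFDerivAt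
    rw [h3.fderiv] at h0
    have h4 : (fderiv ℝ φ z v) 3 = 0 := by
      have := congrArg (fun L : ℂ →L[ℝ] ℝ => L v) h0
      exact this
    have h5 : fderiv ℝ φ z v = vert := hv
    rw [h5, vert_three] at h4
    exact one_ne_zero h4
  · rw [above hF hm h.le] at hp
    have hp' : (p - H • vert) 3 = p 3 - H := svt p H
    obtain ⟨φ, U, V, z, hP, hV, hpV, hFV, hz, hzp, hM⟩ := h2 (p - H • vert)
      ⟨hp, by rw [hp']; linarith, by rw [hp']; linarith⟩
    have hoH : IsOpen {x : E4 | 0 < x 3} := isOpen_lt continuous_const ht_cont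
    refine ⟨fun w => φ w + H • vert, U ∩ φ ⁻¹' {x | 0 < x 3}, up H (V ∩ {x | 0 < x 3}), z,
      epatch_add (hP.restrict
        (hP.smooth.continuousOn.isOpen_inter_preimage hP.isOpen hoH) inter_subset_left) _,
      isOpen_up (hV.inter hoH), mem_up.2 ⟨hpV, ?_⟩, ?_, ⟨hz, ?_⟩, ?_, ?_⟩
    · show 0 < (p - H • vert) 3
      rw [svt]; linarith
    · rw [← up_image]
      ext x
      constructor
      · rintro ⟨hx1, hx2⟩
        rw [mem_up] at hx2
        obtain ⟨hx2, hx3⟩ := hx2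
        have hx3' : 0 < (x - H • vert) 3 := hx3
        rw [svt] at hx3'
        rw [above hF hm (by linarith)] at hx1
        have h3 : x - H • vert ∈ G ∩ V := ⟨hx1, hx2⟩
        rw [hFV] at h3
        obtain ⟨w, hw, hwx⟩ := h3
        refine mem_up.2 ⟨w, ⟨hw, ?_⟩, hwx⟩
        show φ w ∈ {x : E4 | 0 < x 3}
        rw [hwx]; exact hx3
      · intro hx1
        rw [mem_up] at hx1
        obtain ⟨w, ⟨hw, hw2⟩, hwx⟩ := hx1
        have hw2' : 0 < φ w 3 := hw2
        have h3 : φ w ∈ G ∩ V := by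
          rw [hFV]
          exact ⟨w, hw, rfl⟩
        rw [hwx] at h3 hw2'
        exact ⟨Or.inr (mem_up.2 h3.1), mem_up.2 ⟨h3.2, hw2'⟩⟩
    · show φ z ∈ {x : E4 | 0 < x 3}
      rw [hzp]
      show 0 < (p - H • vert) 3
      rw [svt]; linarith
    · show φ z + H • vert = p
      rw [hzp, sub_add_cancel]
    · have e1 : (fun w => (φ w + H • vert) 3) = fun w => φ w 3 + H := by
        funext w
        exact avt _ _
      have e2 : ∀ w, fderiv ℝ (fun w => φ w 3 + H) w = fderiv ℝ (fun w => φ w 3) w :=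
        fun w => fderiv_add_const H
      have e3 : fderiv ℝ (fun w => φ w 3 + H) = fderiv ℝ (fun w => φ w 3) := funext e2
      rw [e1, e3]
      exact hM

end glue

end Pool.Agent.U548.CC
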