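import Mathlib
import Pool.Agent.U548.CC.Glue

/-!
# Local extrema and homeomorphism types of glued surfaces (helper548)
-/

set_option autoImplicit false

namespace Pool.Agent.U548.CC

open scoped ContDiff RealInnerProductSpace ENNReal NNReal Topology
open MeasureTheory Set Metric Filter
open Pool.Agent.Y503.RB Pool.Agent.N503.ML Pool.Agent.N15.RC Pool.Agent.N15.SF

section ext

variable {F G : Set E4} {H K : ℝ}

theorem nhds_below (hG : Cob G K) (hm : Match F H G) {p : E4} (hp : p 3 < H) :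
    𝓝[F ∪ up H G] p = 𝓝[F] p := by
  refine nhdsWithin_eq_nhdsWithin (s := {x : E4 | x 3 < H}) hp
    (isOpen_lt ht_cont continuous_const) ?_
  ext x
  constructor
  · rintro ⟨h1, h2⟩
    exact ⟨(below hG hm (le_of_lt h2)).1 h1, h2⟩
  · rintro ⟨h1, h2⟩
    exact ⟨Or.inl h1, h2⟩

theorem nhds_above (hF : Cob F H) (hm : Match F H G) {p : E4} (hp : H < p 3) :
    𝓝[F ∪ up H G] p = 𝓝[up H G] p := by
  refine nhdsWithin_eq_nhdsWithin (s := {x : E4 | H < x 3}) hp
    (isOpen_lt continuous_const ht_cont) ?_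
  ext x
  constructor
  · rintro ⟨h1, h2⟩
    exact ⟨mem_up.2 ((above hF hm (le_of_lt h2)).1 h1), h2⟩
  · rintro ⟨h1, h2⟩
    exact ⟨Or.inr h1, h2⟩

theorem tendsto_shift (H : ℝ) (G : Set E4) (q : E4) :
    Tendsto (fun x : E4 => x + H • vert) (𝓝[G] q) (𝓝[up H G] (q + H • vert)) := by
  refine tendsto_nhdsWithin_iff.2 ⟨?_, ?_⟩
  · have : ContinuousAt (fun x : E4 => x + H • vert) q := by fun_prop
    exact this.tendsto.mono_left nhdsWithin_le_nhds
  · filter_upwards [self_mem_nhdsWithin] with x hx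
    exact ⟨x, hx, rfl⟩

/-- No local extremum of the height on the seam. -/
theorem seam_no_ext (hF : Cob F H) (hG : Cob G K) (hm : Match F H G) {p : E4} (hp : p ∈ F)
    (hp3 : p 3 = H) : ¬ IsLocalMaxOn (fun x : E4 => x 3) (F ∪ up H G) p ∧
      ¬ IsLocalMinOn (fun x : E4 => x 3) (F ∪ up H G) p := by
  obtain ⟨ε, hε, hεH, hεK, hc⟩ := glue_vert hF hG hm
  have hγ : Tendsto (fun t : ℝ => p + t • vert) (𝓝 0) (𝓝 p) := by
    have : ContinuousAt (fun t : ℝ => p + t • vert) 0 := by fun_prop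
    have h2 := this.tendsto
    simpa using h2
  have hmem : ∀ᶠ t in 𝓝 (0 : ℝ), p + t • vert ∈ F ∪ up H G := by
    have ht1 : ∀ᶠ t in 𝓝 (0 : ℝ), -ε < t := eventually_gt_nhds (by linarith)
    have ht2 : ∀ᶠ t in 𝓝 (0 : ℝ), t < ε := eventually_lt_nhds hε
    filter_upwards [ht1, ht2] with t h4 h5
    rw [hc _ (by rw [avt, hp3, abs_le]; constructor <;> linarith), avt, hp3]
    have : p + t • vert + (H - (H + t)) • vert = p := by
      rw [show H - (H + t) = -t by ring, neg_smul, add_neg_cancel_right]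
    rw [this]
    exact hp
  have hT : Tendsto (fun t : ℝ => p + t • vert) (𝓝 0) (𝓝[F ∪ up H G] p) :=
    tendsto_nhdsWithin_iff.2 ⟨hγ, hmem⟩
  constructor
  · intro h
    have h1 : ∀ᶠ x in 𝓝[F ∪ up H G] p, x 3 ≤ p 3 := h
    have h2 := hT.eventually h1
    have h3 : ∀ᶠ t in 𝓝[>] (0 : ℝ), (p + t • vert) 3 ≤ p 3 := nhdsWithin_le_nhds h2
    obtain ⟨t, h4, h5⟩ := (h3.and self_mem_nhdsWithin).exists
    rw [avt] at h4
    have h5' : 0 < t := h5
    linarith
  · intro h
    have h1 : ∀ᶠ x in 𝓝[F ∪ up H G] p, p 3 ≤ x 3 := h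
    have h2 := hT.eventually h1
    have h3 : ∀ᶠ t in 𝓝[<] (0 : ℝ), p 3 ≤ (p + t • vert) 3 := nhdsWithin_le_nhds h2
    obtain ⟨t, h4, h5⟩ := (h3.and self_mem_nhdsWithin).exists
    rw [avt] at h4
    have h5' : t < 0 := h5
    linarith

theorem nmax_glue (hF : Cob F H) (hG : Cob G K) (hm : Match F H G) :
    nmaxF (F ∪ up H G) (H + K) ≤ nmaxF F H + nmaxF G K := by
  have hsub : {p | p ∈ (F ∪ up H G) ∩ oslab (H + K) ∧
      IsLocalMaxOn (fun x : E4 => x 3) (F ∪ up H G) p} ⊆
      {p | p ∈ F ∩ oslab H ∧ IsLocalMaxOn (fun x : E4 => x 3) F p} ∪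
      up H {p | p ∈ G ∩ oslab K ∧ IsLocalMaxOn (fun x : E4 => x 3) G p} := by
    rintro p ⟨⟨hp, hp0, hpH⟩, hM⟩
    rcases lt_trichotomy (p 3) H with h | h | h
    · refine Or.inl ⟨⟨(below hG hm h.le).1 hp, hp0, h⟩, ?_⟩
      have h1 : ∀ᶠ x in 𝓝[F ∪ up H G] p, x 3 ≤ p 3 := hM
      rw [nhds_below hG hm h] at h1
      exact h1
    · exact absurd hM (seam_no_ext hF hG hm ((below hG hm h.le).1 hp) h).1
    · refine Or.inr (mem_up.2 ⟨⟨(above hF hm h.le).1 hp, ?_⟩, ?_⟩)
      · constructor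
        · rw [svt]; linarith
        · rw [svt]; linarith
      · have h1 : ∀ᶠ x in 𝓝[F ∪ up H G] p, x 3 ≤ p 3 := hM
        rw [nhds_above hF hm h] at h1
        have h2 := tendsto_shift H G (p - H • vert)
        rw [sub_add_cancel] at h2
        have h3 := h2.eventually h1
        show ∀ᶠ x in 𝓝[G] (p - H • vert), x 3 ≤ (p - H • vert) 3
        filter_upwards [h3] with x hx
        rw [avt] at hx
        rw [svt]
        linarith
  unfold nmaxF
  exact (encard_le_encard hsub).trans ((encard_union_le _ _).trans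
    (add_le_add le_rfl (encard_image_le _ _)))

theorem nmin_glue (hF : Cob F H) (hG : Cob G K) (hm : Match F H G) :
    nminF (F ∪ up H G) (H + K) ≤ nminF F H + nminF G K := by
  have hsub : {p | p ∈ (F ∪ up H G) ∩ oslab (H + K) ∧
      IsLocalMinOn (fun x : E4 => x 3) (F ∪ up H G) p} ⊆
      {p | p ∈ F ∩ oslab H ∧ IsLocalMinOn (fun x : E4 => x 3) F p} ∪
      up H {p | p ∈ G ∩ oslab K ∧ IsLocalMinOn (fun x : E4 => x 3) G p} := by
    rintro p ⟨⟨hp, hp0, hpH⟩, hM⟩
    rcases lt_trichotomy (p 3) H with h | h | h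
    · refine Or.inl ⟨⟨(below hG hm h.le).1 hp, hp0, h⟩, ?_⟩
      have h1 : ∀ᶠ x in 𝓝[F ∪ up H G] p, p 3 ≤ x 3 := hM
      rw [nhds_below hG hm h] at h1
      exact h1
    · exact absurd hM (seam_no_ext hF hG hm ((below hG hm h.le).1 hp) h).2
    · refine Or.inr (mem_up.2 ⟨⟨(above hF hm h.le).1 hp, ?_⟩, ?_⟩)
      · constructor
        · rw [svt]; linarith
        · rw [svt]; linarith
      · have h1 : ∀ᶠ x in 𝓝[F ∪ up H G] p, p 3 ≤ x 3 := hM
        rw [nhds_above hF hm h] at h1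
        have h2 := tendsto_shift H G (p - H • vert)
        rw [sub_add_cancel] at h2
        have h3 := h2.eventually h1
        show ∀ᶠ x in 𝓝[G] (p - H • vert), (p - H • vert) 3 ≤ x 3
        filter_upwards [h3] with x hx
        rw [avt] at hx
        rw [svt]
        linarith
  unfold nminF
  exact (encard_le_encard hsub).trans ((encard_union_le _ _).trans
    (add_le_add le_rfl (encard_image_le _ _)))

end ext

/-- `F'` (in the slab of height `H'`) is the image of `F` (in the slab of height `H`) under an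
injective continuous map which is the identity on the bottom boundary and the vertical translation
by `H' - H` on the top boundary. -/
def HT (F : Set E4) (H : ℝ) (F' : Set E4) (H' : ℝ) : Prop :=
  ∃ f : E4 → E4, ContinuousOn f F ∧ InjOn f F ∧ F' = f '' F ∧
    (∀ x ∈ F, x 3 = 0 → f x = x) ∧ (∀ x ∈ F, x 3 = H → f x = x + (H' - H) • vert) ∧
    (∀ x ∈ F, ((f x) 3 = 0 ↔ x 3 = 0) ∧ ((f x) 3 = H' ↔ x 3 = H))

theorem HT.of {F F' : Set E4} {H H' : ℝ} (h : SameType F H F' H') : HT F H F' H' := by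
  obtain ⟨Φ, D, hD, hFD, hs, hinj, -, h1, h2, h3, h4⟩ := h
  exact ⟨Φ, hs.continuousOn.mono hFD, hinj.mono hFD, h1, h2, h3, h4⟩

theorem HT.homeo {F F' : Set E4} {H H' : ℝ} (hF : IsCompact F) (h : HT F H F' H') :
    Nonempty (F ≃ₜ F') := by
  obtain ⟨Φ, hs, hinj, rfl, -, -, -⟩ := h
  have hcs : CompactSpace F := isCompact_iff_compactSpace.1 hF
  let e : F ≃ (Φ '' F) := Equiv.Set.imageOfInjOn Φ F hinj
  have he : Continuous e := by
    refine Continuous.subtype_mk ?_ _
    exact continuousOn_iff_continuous_domRestrict.1 hs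
  exact ⟨he.homeoOfEquivCompactToT2⟩

theorem HT.bot {F F' : Set E4} {H H' : ℝ} (h : HT F H F' H') :
    F' ∩ {x | x 3 = 0} = F ∩ {x | x 3 = 0} := by
  obtain ⟨Φ, hs, hinj, rfl, h0, h1, h2⟩ := h
  ext x
  constructor
  · rintro ⟨⟨u, hu, rfl⟩, hx⟩
    have h3 : u 3 = 0 := ((h2 u hu).1).1 hx
    rw [h0 u hu h3]
    exact ⟨hu, h3⟩
  · rintro ⟨hx, hx0⟩
    exact ⟨⟨x, hx, h0 x hx hx0⟩, hx0⟩

theorem HT.top {F F' : Set E4} {H H' : ℝ} (h : HT F H F' H') :
    F' ∩ {x | x 3 = H'} = up (H' - H) (F ∩ {x | x 3 = H}) := by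
  obtain ⟨Φ, hs, hinj, rfl, h0, h1, h2⟩ := h
  ext x
  constructor
  · rintro ⟨⟨u, hu, rfl⟩, hx⟩
    have h3 : u 3 = H := ((h2 u hu).2).1 hx
    exact ⟨u, ⟨hu, h3⟩, (h1 u hu h3).symm⟩
  · rintro ⟨u, ⟨hu, hu0⟩, rfl⟩
    refine ⟨⟨u, hu, h1 u hu hu0⟩, ?_⟩
    show (u + (H' - H) • vert) 3 = H'
    rw [avt, hu0]
    ring

theorem Match.transfer {F G F' G' : Set E4} {H K H' K' : ℝ} (hm : Match F H G)
    (h1 : HT F H F' H') (h2 : HT G K G' K') : Match F' H' G' := by
  unfold Match
  rw [h1.top, h2.bot, hm, up_up]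
  congr 1
  ring

theorem HT.glue {F G F' G' : Set E4} {H K H' K' : ℝ} (hF : Cob F H) (hG : Cob G K)
    (hm : Match F H G) (hF' : Cob F' H') (hG' : Cob G' K') (h1 : HT F H F' H')
    (h2 : HT G K G' K') : HT (F ∪ up H G) (H + K) (F' ∪ up H' G') (H' + K') := by
  classical
  have hH := Cob.pos hF
  have hK := Cob.pos hG
  have hH' := Cob.pos hF'
  have hK' := Cob.pos hG'
  obtain ⟨f, f1, f2, f3, f4, f5, f6⟩ := h1
  obtain ⟨g, g1, g2, g3, g4, g5, g6⟩ := h2
  obtain ⟨k, hk⟩ : ∃ k : E4 → E4, k = fun x => if x 3 ≤ H then f x else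
    g (x - H • vert) + H' • vert := ⟨_, rfl⟩
  have k1 : ∀ x ∈ F, k x = f x := by
    intro x hx
    rw [hk]
    exact if_pos (hF.sub hx).2
  have k2 : ∀ x, x - H • vert ∈ G → k x = g (x - H • vert) + H' • vert := by
    intro x hx
    rcases le_or_gt (x 3) H with h | h
    · have h3 := (hG.sub hx).1
      rw [svt] at h3
      have h4 : x 3 = H := le_antisymm h (by linarith)
      have h5 : x ∈ F := (hm.iff h4).2 hx
      rw [k1 x h5, f5 x h5 h4, g4 _ hx (by rw [svt, h4, sub_self])]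
      rw [sub_smul]
      abel
    · rw [hk]
      exact if_neg (not_le.2 h)
  have hup : ContinuousOn k (up H G) := by
    have h3 : ContinuousOn (fun x => g (x - H • vert) + H' • vert) (up H G) := by
      refine ContinuousOn.add ?_ continuousOn_const
      exact g1.comp (by fun_prop) fun x hx => mem_up.1 hx
    exact h3.congr fun x hx => k2 x (mem_up.1 hx)
  have hsF : ∀ x ∈ F, (f x) 3 ≤ H' := fun x hx =>
    (hF'.sub (by rw [f3]; exact ⟨x, hx, rfl⟩)).2
  have hsG : ∀ x ∈ G, 0 ≤ (g x) 3 := fun x hx =>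
    (hG'.sub (by rw [g3]; exact ⟨x, hx, rfl⟩)).1
  have hsF0 : ∀ x ∈ F, 0 ≤ (f x) 3 := fun x hx =>
    (hF'.sub (by rw [f3]; exact ⟨x, hx, rfl⟩)).1
  have hcross : ∀ x ∈ F, ∀ y, y - H • vert ∈ G → f x = g (y - H • vert) + H' • vert → x = y := by
    intro x hx y hy h
    have h3 : (f x) 3 = (g (y - H • vert)) 3 + H' := by rw [h, avt]
    have h4 := hsF x hx
    have h5 := hsG _ hy
    have h6 : (f x) 3 = H' := by linarith
    have h7 : (g (y - H • vert)) 3 = 0 := by linarith
    have h8 : x 3 = H := (f6 x hx).2.1 h6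
    have h9 : (y - H • vert) 3 = 0 := (g6 _ hy).1.1 h7
    rw [f5 x hx h8, g4 _ hy h9] at h
    have h10 : y - H • vert + H' • vert = y + (H' - H) • vert := by
      rw [sub_smul]; abel
    rw [h10] at h
    exact add_right_cancel h
  refine ⟨k, ?_, ?_, ?_, ?_, ?_, ?_⟩
  · exact (f1.congr k1).union_of_isClosed hup hF.compact.isClosed
      (isCompact_up hG.compact).isClosed
  · rintro x (hx | hx) y (hy | hy) h
    · rw [k1 x hx, k1 y hy] at h
      exact f2 hx hy h
    · have hy' := mem_up.1 hy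
      rw [k1 x hx, k2 y hy'] at h
      exact hcross x hx y hy' h
    · have hx' := mem_up.1 hx
      rw [k1 y hy, k2 x hx'] at h
      exact (hcross y hy x hx' h.symm).symm
    · have hx' := mem_up.1 hx
      have hy' := mem_up.1 hy
      rw [k2 x hx', k2 y hy'] at h
      have h3 := g2 hx' hy' (add_right_cancel h)
      exact sub_left_injective h3
  · rw [image_union, f3, g3]
    congr 1
    · exact image_congr fun x hx => (k1 x hx).symm
    · ext y
      constructor
      · rintro ⟨_, ⟨x, hx, rfl⟩, rfl⟩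
        refine ⟨x + H • vert, ⟨x, hx, rfl⟩, ?_⟩
        rw [k2 _ (by rwa [add_sub_cancel_right]), add_sub_cancel_right]
      · rintro ⟨x, hx, rfl⟩
        have hx' := mem_up.1 hx
        rw [k2 x hx']
        exact ⟨_, ⟨_, hx', rfl⟩, rfl⟩
  · intro x hx h0
    have h3 : x ∈ F := (below hG hm (by rw [h0]; exact hH.le)).1 hx
    rw [k1 x h3]
    exact f4 x h3 h0
  · intro x hx h0
    have h3 : x - H • vert ∈ G := (above hF hm (by rw [h0]; linarith)).1 hx
    rw [k2 x h3, g5 _ h3 (by rw [svt, h0]; ring)]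
    module
  · rintro x hx
    rcases le_total (x 3) H with h | h
    · have h3 : x ∈ F := (below hG hm h).1 hx
      rw [k1 x h3]
      refine ⟨(f6 x h3).1, ?_⟩
      have h4 := hsF x h3
      constructor
      · intro h5; linarith
      · intro h5; linarith
    · have h3 : x - H • vert ∈ G := (above hF hm h).1 hx
      rw [k2 x h3, avt]
      have h4 := hsG _ h3
      have h5 := (g6 _ h3).2
      rw [svt] at h5
      constructor
      · constructor
        · intro h6; linarith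
        · intro h6; linarith
      · constructor
        · intro h6
          have := h5.1 (by linarith)
          linarith
        · intro h6
          have := h5.2 (by linarith)
          linarith

theorem HT.refl (F : Set E4) (H : ℝ) : HT F H F H := by
  refine ⟨id, continuousOn_id, injOn_id _, (image_id _).symm, fun x _ _ => rfl, fun x _ _ => ?_,
    fun x _ => ⟨Iff.rfl, Iff.rfl⟩⟩
  rw [sub_self, zero_smul, add_zero]
  rfl

end Pool.Agent.U548.CC
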