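import Mathlib
import Pool.Agent.N503.WS
import Pool.Agent.U548.CC.Ext

/-!
# Composed surfaces: curvature of the parts between horizontal levels (helper548)
-/

set_option autoImplicit false

namespace Pool.Agent.U548.CC

open scoped ContDiff RealInnerProductSpace ENNReal NNReal Topology
open MeasureTheory Set Metric Filter
open Pool.Agent.Y503.RB Pool.Agent.N503.ML Pool.Agent.N15.RC Pool.Agent.N15.SF
open Pool.Agent.N503.WI

/-- Countable families of parametrised pieces of `F` which cover the part of `F` between the levels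
`a` and `b`. -/
structure CoverP (F : Set E4) (a b : ℝ) (φ : ℕ → ℂ → E4) (U A : ℕ → Set ℂ) : Prop where
  patch : ∀ i, IPatch (φ i) (U i)
  sub : ∀ i, φ i '' U i ⊆ F
  meas : ∀ i, MeasurableSet (A i)
  sub' : ∀ i, A i ⊆ U i
  cov : F ∩ {x | a < x 3 ∧ x 3 < b} ⊆ ⋃ i, φ i '' A i

/-- The integral of a curvature density `k` over the part of `F` between the levels `a` and `b`: the
infimum over all coverings of this part by parametrised pieces. -/
noncomputable def part (k : (ℂ → E4) → ℂ → ℝ≥0∞) (F : Set E4) (a b : ℝ) : ℝ≥0∞ :=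
  ⨅ (φ : ℕ → ℂ → E4) (U : ℕ → Set ℂ) (A : ℕ → Set ℂ) (_ : CoverP F a b φ U A),
    ∑' i, ∫⁻ z in A i, k (φ i) z

theorem coverP_iff {F : Set E4} {H : ℝ} {φ : ℕ → ℂ → E4} {U A : ℕ → Set ℂ} :
    Cover F H φ U A ↔ CoverP F 0 H φ U A :=
  ⟨fun h => ⟨h.1, h.2, h.3, h.4, h.5⟩, fun h => ⟨h.1, h.2, h.3, h.4, h.5⟩⟩

theorem low_part (F : Set E4) (H : ℝ) : lowF F H = part curvL F 0 H := by
  unfold lowF part
  simp only [coverP_iff]

theorem upp_part (F : Set E4) (H : ℝ) : uppF F H = part curvE F 0 H := by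
  unfold uppF part
  simp only [coverP_iff]

theorem wil_part (F : Set E4) (H : ℝ) : wilF F H = part wilAt F 0 H := by
  unfold wilF part
  simp only [coverP_iff]

/-- Translation invariant densities. -/
def TInv (k : (ℂ → E4) → ℂ → ℝ≥0∞) : Prop :=
  ∀ (φ : ℂ → E4) (c : E4), k (fun w => φ w + c) = k φ

theorem fderiv_tr (φ : ℂ → E4) (c : E4) : fderiv ℝ (fun w => φ w + c) = fderiv ℝ φ :=
  funext fun _ => fderiv_add_const c

theorem d1_tr (φ : ℂ → E4) (c : E4) : d1 (fun w => φ w + c) = d1 φ := by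
  funext v z
  unfold d1
  rw [fderiv_tr]

theorem d2_tr (φ : ℂ → E4) (c : E4) : d2 (fun w => φ w + c) = d2 φ := by
  funext u v z
  unfold d2
  rw [fderiv_tr]

theorem sff_tr (φ : ℂ → E4) (c : E4) : sff (fun w => φ w + c) = sff φ := by
  funext n u v z
  unfold sff
  rw [d2_tr]

theorem fffDet_tr (φ : ℂ → E4) (c : E4) : fffDet (fun w => φ w + c) = fffDet φ := by
  funext z
  unfold fffDet fff
  rw [d1_tr]

theorem kdet_tr (φ : ℂ → E4) (c : E4) : kdet (fun w => φ w + c) = kdet φ := by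
  funext n z
  unfold kdet
  rw [sff_tr]

theorem tinv_L : TInv curvL := by
  classical
  intro φ c
  funext z
  unfold curvL densL Cup
  rw [d1_tr, fffDet_tr, kdet_tr, sff_tr]

theorem tinv_E : TInv curvE := by
  classical
  intro φ c
  funext z
  unfold curvE densE Cap
  rw [d1_tr, fffDet_tr, kdet_tr, sff_tr]

theorem proj_congr {L L' : ℂ →L[ℝ] E4} (h : L = L') (v : E4) :
    (LinearMap.range L.toLinearMap)ᗮ.starProjection v =
      (LinearMap.range L'.toLinearMap)ᗮ.starProjection v := by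
  subst h
  rfl

theorem halfTrace_tr (φ : ℂ → E4) (c : E4) : halfTrace (fun w => φ w + c) = halfTrace φ := by
  funext z
  unfold halfTrace fff
  rw [d1_tr, d2_tr, fffDet_tr]

theorem meanCurv_tr (φ : ℂ → E4) (c : E4) : meanCurv (fun w => φ w + c) = meanCurv φ := by
  funext z
  unfold meanCurv
  rw [halfTrace_tr]
  exact proj_congr (congrFun (fderiv_tr φ c) z) _

theorem tinv_W : TInv wilAt := by
  intro φ c
  funext z
  unfold wilAt
  rw [meanCurv_tr, fffDet_tr]

/-- Restriction of a covering to the part between the levels `b` and `c`, followed by a translation. -/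
theorem coverP_shift {F : Set E4} {a b c : ℝ} {φ : ℕ → ℂ → E4} {U A : ℕ → Set ℂ}
    (h : CoverP F b c φ U A) (F' : Set E4)
    (hF' : ∀ x : E4, b < x 3 → x 3 < c → (x ∈ F ↔ x + (-a) • vert ∈ F')) :
    CoverP F' (b - a) (c - a) (fun i w => φ i w + (-a) • vert)
      (fun i => U i ∩ φ i ⁻¹' {x | b < x 3 ∧ x 3 < c})
      (fun i => A i ∩ (U i ∩ φ i ⁻¹' {x | b < x 3 ∧ x 3 < c})) := by
  have hWo : IsOpen {x : E4 | b < x 3 ∧ x 3 < c} :=
    (isOpen_lt continuous_const ht_cont).inter (isOpen_lt ht_cont continuous_const)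
  have hUo : ∀ i, IsOpen (U i ∩ φ i ⁻¹' {x | b < x 3 ∧ x 3 < c}) := fun i =>
    (h.patch i).smooth.continuousOn.isOpen_inter_preimage (h.patch i).isOpen hWo
  refine ⟨fun i => ⟨hUo i, ?_, ?_⟩, ?_, fun i => (h.meas i).inter (hUo i).measurableSet,
    fun i => inter_subset_right, ?_⟩
  · exact ((h.patch i).smooth.mono inter_subset_left).add contDiffOn_const
  · intro z hz
    rw [fderiv_tr]
    exact (h.patch i).imm z hz.1
  · rintro i _ ⟨z, ⟨hz, hz1, hz2⟩, rfl⟩
    exact (hF' _ hz1 hz2).1 (h.sub i ⟨z, hz, rfl⟩)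
  · rintro x ⟨hx, hx1, hx2⟩
    have e : x + a • vert + (-a) • vert = x := by
      rw [neg_smul, add_neg_cancel_right]
    have h3 : b < (x + a • vert) 3 := by rw [avt]; linarith
    have h4 : (x + a • vert) 3 < c := by rw [avt]; linarith
    have h1 : x + a • vert ∈ F := (hF' _ h3 h4).2 (by rw [e]; exact hx)
    obtain ⟨i, hi⟩ := mem_iUnion.1 (h.cov ⟨h1, h3, h4⟩)
    obtain ⟨z, hz, hzx⟩ := hi
    refine mem_iUnion.2 ⟨i, z, ⟨hz, h.sub' i hz, ?_⟩, ?_⟩
    · show b < (φ i z) 3 ∧ (φ i z) 3 < c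
      rw [hzx]
      exact ⟨h3, h4⟩
    · show φ i z + (-a) • vert = x
      rw [hzx, e]

theorem part_le {k : (ℂ → E4) → ℂ → ℝ≥0∞} (hk : TInv k) {F F' : Set E4} {a b c : ℝ}
    (hF' : ∀ x : E4, b < x 3 → x 3 < c → (x ∈ F ↔ x + (-a) • vert ∈ F')) :
    part k F' (b - a) (c - a) ≤ part k F b c := by
  unfold part
  refine le_iInf fun φ => le_iInf fun U => le_iInf fun A => le_iInf fun h => ?_
  refine iInf_le_of_le _ (iInf_le_of_le _ (iInf_le_of_le _
    (iInf_le_of_le (coverP_shift h F' hF') ?_)))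
  refine ENNReal.tsum_le_tsum fun i => ?_
  rw [hk]
  exact lintegral_mono_set inter_subset_left

theorem part_lo {k : (ℂ → E4) → ℂ → ℝ≥0∞} (hk : TInv k) (F : Set E4) (a : ℝ) :
    part k (lo F a) 0 a ≤ part k F 0 a := by
  have h := part_le hk (F := F) (F' := lo F a) (a := 0) (b := 0) (c := a) (fun x h1 h2 => by
    rw [neg_zero, zero_smul, add_zero]
    exact ⟨fun h => ⟨h, h2.le⟩, fun h => h.1⟩)
  rwa [sub_zero, sub_zero] at h

theorem part_hi {k : (ℂ → E4) → ℂ → ℝ≥0∞} (hk : TInv k) (F : Set E4) {a b c : ℝ} (hab : a ≤ b) :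
    part k (hi F a) (b - a) (c - a) ≤ part k F b c := by
  refine part_le hk fun x h1 h2 => ?_
  rw [mem_hi, avt]
  have e : x + (-a) • vert + a • vert = x := by
    rw [neg_smul, neg_add_cancel_right]
  rw [e]
  exact ⟨fun h => ⟨h, by linarith⟩, fun h => h.1⟩

theorem vert_hi {F : Set E4} {a b : ℝ} (hab : a < b) (hv : VertAt F b) : VertAt (hi F a) (b - a) := by
  obtain ⟨ε, hε, hc⟩ := hv
  refine ⟨min ε (b - a), lt_min hε (by linarith), fun x hx => ?_⟩
  have e1 := min_le_left ε (b - a)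
  have e2 := min_le_right ε (b - a)
  obtain ⟨h1, h2⟩ := abs_le.1 hx
  rw [mem_hi, mem_hi, hc _ (by rw [avt, abs_le]; constructor <;> linarith), avt, avt]
  have h3 : x + a • vert + (b - (x 3 + a)) • vert = x + (b - a - x 3) • vert + a • vert := by
    module
  rw [h3]
  constructor
  · rintro ⟨h4, -⟩
    exact ⟨h4, by linarith⟩
  · rintro ⟨h4, -⟩
    exact ⟨h4, by linarith⟩

/-- The composition principle: if a bound for the integral of the density `k` over a surface in a
slab allows to replace it by a surface with Morse height and at most `m` extrema of a certain kind,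
then such bounds for the parts between the levels of a composed surface are sufficient. -/
theorem compose {k : (ℂ → E4) → ℂ → ℝ≥0∞} (hk : TInv k) (c : ℕ → ℝ≥0∞)
    (N : Set E4 → ℝ → ℕ∞)
    (hN : ∀ F H G K, Cob F H → Cob G K → Match F H G → N (F ∪ up H G) (H + K) ≤ N F H + N G K)
    (hrep : ∀ F H (m : ℕ), Cob F H → part k F 0 H < c m →
      ∃ F' H', Cob F' H' ∧ HT F H F' H' ∧ MorseF F' H' ∧ N F' H' ≤ m) (n : ℕ) :
    ∀ (F : Set E4) (H : ℝ) (t : ℕ → ℝ) (m : ℕ → ℕ), Cob F H → t 0 = 0 → t (n + 1) = H →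
      (∀ i ≤ n, t i < t (i + 1)) → (∀ i < n, VertAt F (t (i + 1))) →
      (∀ i ≤ n, part k F (t i) (t (i + 1)) < c (m i)) →
      ∃ F' H', Cob F' H' ∧ HT F H F' H' ∧ MorseF F' H' ∧
        N F' H' ≤ ((∑ i ∈ Finset.range (n + 1), m i : ℕ) : ℕ∞) := by
  induction n with
  | zero =>
    intro F H t m hF h0 h1 hlt hv hp
    have h2 := hp 0 le_rfl
    rw [h0, zero_add, ← zero_add 1, h1] at h2
    obtain ⟨F', H', a1, a2, a3, a4⟩ := hrep F H (m 0) hF h2
    refine ⟨F', H', a1, a2, a3, ?_⟩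
    simpa using a4
  | succ n ih =>
    intro F H t m hF h0 h1 hlt hv hp
    have ha : 0 < t 1 := by
      have := hlt 0 (Nat.zero_le _)
      rwa [h0] at this
    have hmono : ∀ j, j ≤ n → t 1 < t (j + 2) := by
      intro j
      induction j with
      | zero => intro _; exact hlt 1 (by omega)
      | succ j ihj =>
        intro hj
        exact (ihj (by omega)).trans (hlt (j + 2) (by omega))
    have haH : t 1 < H := by
      rw [← h1]
      exact hmono n le_rfl
    have hva : VertAt F (t 1) := hv 0 (by omega)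
    have hlo := cob_lo hF ha haH hva
    have hhi := cob_hi hF ha haH hva
    have hle : ∀ i, i ≤ n → t 1 ≤ t (i + 1) := by
      intro i hi
      rcases i with _ | i
      · exact le_rfl
      · exact (hmono i (by omega)).le
    obtain ⟨F', H', a1, a2, a3, a4⟩ := hrep (lo F (t 1)) (t 1) (m 0) hlo (by
      have h2 := hp 0 (by omega)
      rw [h0] at h2
      exact (part_lo hk F (t 1)).trans_lt h2)
    obtain ⟨G', K', b1, b2, b3, b4⟩ := ih (hi F (t 1)) (H - t 1) (fun i => t (i + 1) - t 1)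
      (fun i => m (i + 1)) hhi (by simp) (by rw [← h1])
      (fun i hi => by
        have := hlt (i + 1) (by omega)
        show t (i + 1) - t 1 < t (i + 1 + 1) - t 1
        linarith)
      (fun i hi => vert_hi (hmono i (by omega)) (hv (i + 1) (by omega)))
      (fun i hi => (part_hi hk F (hle i hi)).trans_lt (hp (i + 1) (by omega)))
    have hm := (match_lo_hi (F := F) (a := t 1)).transfer a2 b2
    refine ⟨F' ∪ up H' G', H' + K', cob_glue a1 b1 hm, ?_, morse_glue a1 b1 hm a3 b3, ?_⟩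
    · have h2 := HT.glue hlo hhi match_lo_hi a1 b1 a2 b2
      rw [lo_union_hi, add_sub_cancel] at h2
      exact h2
    · refine (hN _ _ _ _ a1 b1 hm).trans ((add_le_add a4 b4).trans ?_)
      rw [Finset.sum_range_succ' (fun i => m i) (n + 1), add_comm]
      push_cast
      exact le_rfl

/-- Lower total curvature and local minima. -/
theorem rep_low (F : Set E4) (H : ℝ) (m : ℕ) (hF : Cob F H)
    (h : part curvL F 0 H < ENNReal.ofReal (Real.pi ^ 2 * (m + 1))) :
    ∃ F' H', Cob F' H' ∧ HT F H F' H' ∧ MorseF F' H' ∧ nminF F' H' ≤ m := by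
  rw [← low_part] at h
  obtain ⟨η, hη, hη2⟩ := exists_eta h
  obtain ⟨F', H', a1, a2, a3, a4⟩ := all_A F H hF 1 0 η hη
  refine ⟨F', H', a1, HT.of a2, a3, nat_of_lt ?_⟩
  simp only [ENNReal.coe_one, ENNReal.coe_zero, one_mul, zero_mul, add_zero] at a4
  exact a4.trans_lt hη2

/-- Upper total curvature and local maxima. -/
theorem rep_upp (F : Set E4) (H : ℝ) (m : ℕ) (hF : Cob F H)
    (h : part curvE F 0 H < ENNReal.ofReal (Real.pi ^ 2 * (m + 1))) :
    ∃ F' H', Cob F' H' ∧ HT F H F' H' ∧ MorseF F' H' ∧ nmaxF F' H' ≤ m := by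
  rw [← upp_part] at h
  obtain ⟨η, hη, hη2⟩ := exists_eta h
  obtain ⟨F', H', a1, a2, a3, a4⟩ := all_A F H hF 0 1 η hη
  refine ⟨F', H', a1, HT.of a2, a3, nat_of_lt ?_⟩
  simp only [ENNReal.coe_one, ENNReal.coe_zero, one_mul, zero_mul, zero_add] at a4
  exact a4.trans_lt hη2

/-- Willmore energy and local extrema. -/
theorem rep_wil (F : Set E4) (H : ℝ) (m : ℕ) (hF : Cob F H)
    (h : part wilAt F 0 H < ENNReal.ofReal (2 * Real.pi * (m + 1))) :
    ∃ F' H', Cob F' H' ∧ HT F H F' H' ∧ MorseF F' H' ∧ nminF F' H' + nmaxF F' H' ≤ m := by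
  have hpi := Real.pi_pos
  rw [← wil_part] at h
  have h0 : ENNReal.ofReal (Real.pi / 2) ≠ 0 := by
    rw [Ne, ENNReal.ofReal_eq_zero, not_le]; positivity
  have h1 : lowF F H + uppF F H < ENNReal.ofReal (Real.pi ^ 2 * (m + 1)) := by
    refine (sumF_le F H).trans_lt ?_
    have h2 : ENNReal.ofReal (Real.pi ^ 2 * (m + 1)) =
        ENNReal.ofReal (Real.pi / 2) * ENNReal.ofReal (2 * Real.pi * (m + 1)) := by
      rw [← ENNReal.ofReal_mul (by positivity)]
      congr 1
      ring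
    rw [h2]
    exact (ENNReal.mul_lt_mul_iff_right h0 ENNReal.ofReal_ne_top).2 h
  obtain ⟨η, hη, hη2⟩ := exists_eta h1
  obtain ⟨F', H', a1, a2, a3, a4⟩ := all_A F H hF 1 1 η hη
  refine ⟨F', H', a1, HT.of a2, a3, nat_of_lt ?_⟩
  simp only [ENNReal.coe_one, one_mul] at a4
  push_cast
  exact a4.trans_lt hη2

end Pool.Agent.U548.CC
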