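import Mathlib
import Pool.Agent.N503.WH
import Pool.Agent.U548.CC.Comp

/-!
# Composed surfaces in the half-space (helper548)
-/

set_option autoImplicit false

namespace Pool.Agent.U548.CC

open scoped ContDiff RealInnerProductSpace ENNReal NNReal Topology
open MeasureTheory Set Metric Filter
open Pool.Agent.Y503.RB Pool.Agent.N503.ML Pool.Agent.N15.RC Pool.Agent.N15.SF
open Pool.Agent.N503.WI

/-- The lower total curvature of the part of `F` between the levels `a` and `b`. -/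
noncomputable def lowP (F : Set E4) (a b : ℝ) : ℝ≥0∞ := part curvL F a b

/-- The Willmore energy of the part of `F` between the levels `a` and `b`. -/
noncomputable def wilP (F : Set E4) (a b : ℝ) : ℝ≥0∞ := part wilAt F a b

/-- `0 = t 0 < t 1 < … < t n < t (n + 1)` are levels such that the surface `F` lies below the last one
and is vertical near `t 1, …, t n`: these levels cut `F` into `n + 1` parts. -/
structure Levels (F : Set E4) (n : ℕ) (t : ℕ → ℝ) : Prop where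
  zero : t 0 = 0
  lt : ∀ i ≤ n, t i < t (i + 1)
  vert : ∀ i < n, VertAt F (t (i + 1))
  top : ∀ x ∈ F, x 3 < t (n + 1)

theorem cob_of_lt {F : Set E4} (h : HSurf F) {T : ℝ} (hT : 0 < T) (hlt : ∀ x ∈ F, x 3 < T) :
    Cob F T := by
  obtain ⟨ε, hε, hcol⟩ := h.collar
  obtain ⟨δ, hδ, hδ2⟩ : ∃ δ : ℝ, 0 < δ ∧ ∀ x ∈ F, x 3 ≤ T - δ := by
    rcases F.eq_empty_or_nonempty with h0 | h0
    · exact ⟨1, one_pos, fun x hx => by rw [h0] at hx; exact absurd hx (notMem_empty x)⟩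
    · obtain ⟨p, hp, hmax⟩ := h.compact.exists_isMaxOn h0 ht_cont.continuousOn
      have h1 := hlt p hp
      refine ⟨T - p 3, by linarith, fun x hx => ?_⟩
      have h2 : x 3 ≤ p 3 := hmax hx
      linarith
  have e1 := min_le_left ε (min (δ / 2) (T / 2))
  have e2 := (min_le_right ε (min (δ / 2) (T / 2))).trans (min_le_left _ _)
  have e3 := (min_le_right ε (min (δ / 2) (T / 2))).trans (min_le_right _ _)
  refine ⟨h.compact, fun x hx => ⟨h.nonneg x hx, (hlt x hx).le⟩, ?_, min ε (min (δ / 2) (T / 2)),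
    lt_min hε (lt_min (by linarith) (by linarith)), by linarith,
    fun x h1 h2 => hcol x h1 (h2.trans e1), fun x h1 h2 => ?_⟩
  · intro p hp
    obtain ⟨φ, U, V, hE, hV, hpV, hFV⟩ := h.loc p hp
    have hoH : IsOpen {x : E4 | x 3 < T} := isOpen_lt ht_cont continuous_const
    refine ⟨φ, U ∩ φ ⁻¹' {x | x 3 < T}, V ∩ {x | x 3 < T}, hE.restrict
      (hE.smooth.continuousOn.isOpen_inter_preimage hE.isOpen hoH) inter_subset_left,
      hV.inter hoH, ⟨hpV, hlt p hp⟩, ?_⟩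
    ext x
    constructor
    · rintro ⟨hx1, hx2, hx3⟩
      have h1 : x ∈ F ∩ V := ⟨hx1, hx2⟩
      rw [hFV] at h1
      obtain ⟨⟨z, hz, rfl⟩, h2⟩ := h1
      exact ⟨⟨z, ⟨hz, hx3⟩, rfl⟩, h2, le_of_lt hx3⟩
    · rintro ⟨⟨z, ⟨hz, hz2⟩, rfl⟩, h2, h3⟩
      have h1 : φ z ∈ F ∩ V := by
        rw [hFV]
        exact ⟨⟨z, hz, rfl⟩, h2⟩
      exact ⟨h1.1, h1.2, hz2⟩
  · constructor
    · intro hx
      have := hδ2 x hx
      linarith
    · intro hx
      have := hδ2 _ hx
      rw [avt] at this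
      linarith

theorem half_back {F F' : Set E4} {T H' : ℝ} (hlt : ∀ x ∈ F, x 3 < T) (h : HT F T F' H')
    (hc : Cob F' H') : ∀ x ∈ F', x 3 < H' := by
  intro x hx
  refine lt_of_le_of_ne (hc.sub hx).2 fun he => ?_
  have h1 : x ∈ F' ∩ {x | x 3 = H'} := ⟨hx, he⟩
  rw [h.top, mem_up] at h1
  have h2 := hlt _ h1.1
  have h3 : (x - (H' - T) • Pool.Agent.N503.ML.vert) 3 = T := h1.2
  linarith

theorem top_pos {F : Set E4} {n : ℕ} {t : ℕ → ℝ} (h : Levels F n t) : 0 < t (n + 1) := by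
  have : ∀ j, j ≤ n → 0 < t (j + 1) := by
    intro j
    induction j with
    | zero =>
      intro _
      have := h.lt 0 (Nat.zero_le _)
      rwa [h.zero] at this
    | succ j ih =>
      intro hj
      exact (ih (by omega)).trans (h.lt (j + 1) hj)
  exact this n le_rfl

/-- Curvature of the parts and local minima, in the half-space. -/
theorem half_low (S : Type) [TopologicalSpace S] (K F : Set E4) (n : ℕ) (t : ℕ → ℝ) (m : ℕ → ℕ)
    (hF : HCls S K F) (hL : Levels F n t)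
    (hp : ∀ i ≤ n, lowP F (t i) (t (i + 1)) < ENNReal.ofReal (Real.pi ^ 2 * (m i + 1))) :
    ∃ F', HCls S K F' ∧ MorseS F' ∧ nminS F' ≤ ((∑ i ∈ Finset.range (n + 1), m i : ℕ) : ℕ∞) := by
  have hc := cob_of_lt hF.1 (top_pos hL) hL.top
  obtain ⟨F', H', a1, a2, a3, a4⟩ := compose tinv_L
    (fun m : ℕ => ENNReal.ofReal (Real.pi ^ 2 * (m + 1))) nminF
    (fun F H G K h1 h2 h3 => nmin_glue h1 h2 h3) rep_low n F (t (n + 1)) t m hc hL.zero rfl hL.lt
    hL.vert hp
  have hlt := half_back hL.top a2 a1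
  obtain ⟨e⟩ := a2.homeo hc.compact
  obtain ⟨f⟩ := hF.2.2
  exact ⟨F', ⟨half_of a1 hlt, by rw [a2.bot]; exact hF.2.1, ⟨e.symm.trans f⟩⟩,
    (morse_eq hlt).1 a3, by rwa [← nmin_eq hlt]⟩

/-- Willmore energy of the parts and local extrema, in the half-space. -/
theorem half_wil (S : Type) [TopologicalSpace S] (K F : Set E4) (n : ℕ) (t : ℕ → ℝ) (m : ℕ → ℕ)
    (hF : HCls S K F) (hL : Levels F n t)
    (hp : ∀ i ≤ n, wilP F (t i) (t (i + 1)) < ENNReal.ofReal (2 * Real.pi * (m i + 1))) :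
    ∃ F', HCls S K F' ∧ MorseS F' ∧
      nminS F' + nmaxS F' ≤ ((∑ i ∈ Finset.range (n + 1), m i : ℕ) : ℕ∞) := by
  have hc := cob_of_lt hF.1 (top_pos hL) hL.top
  obtain ⟨F', H', a1, a2, a3, a4⟩ := compose tinv_W
    (fun m : ℕ => ENNReal.ofReal (2 * Real.pi * (m + 1))) (fun F H => nminF F H + nmaxF F H)
    (fun F H G K h1 h2 h3 => (add_le_add (nmin_glue h1 h2 h3) (nmax_glue h1 h2 h3)).trans
      (le_of_eq (by ring))) rep_wil n F (t (n + 1)) t m hc hL.zero rfl hL.lt hL.vert hp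
  have hlt := half_back hL.top a2 a1
  obtain ⟨e⟩ := a2.homeo hc.compact
  obtain ⟨f⟩ := hF.2.2
  exact ⟨F', ⟨half_of a1 hlt, by rw [a2.bot]; exact hF.2.1, ⟨e.symm.trans f⟩⟩,
    (morse_eq hlt).1 a3, by rwa [← nmin_eq hlt, ← nmax_eq hlt]⟩

/-- The level above a surface in the half-space. -/
theorem exists_level {F : Set E4} (h : HSurf F) : ∃ t : ℕ → ℝ, Levels F 0 t := by
  obtain ⟨H, hH, hlt⟩ := cob_of h
  refine ⟨fun i => i * H, by simp, fun i hi => ?_, fun i hi => absurd hi (by omega), ?_⟩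
  · have := Cob.pos hH
    have h0 : i = 0 := by omega
    subst h0
    simpa using this
  · intro x hx
    simpa using hlt x hx

theorem lowP_one {F : Set E4} {t : ℕ → ℝ} (hL : Levels F 0 t) :
    lowP F (t 0) (t (0 + 1)) = lowS F := by
  rw [hL.zero, ← low_eq hL.top, low_part]
  rfl

/-- The number of local minima and composed surfaces. -/
theorem half_iff (S : Type) [TopologicalSpace S] (K : Set E4) (M : ℕ) :
    (∃ F, HCls S K F ∧ MorseS F ∧ nminS F ≤ M) ↔
      ∃ (F : Set E4) (n : ℕ) (t : ℕ → ℝ) (m : ℕ → ℕ), HCls S K F ∧ Levels F n t ∧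
        ∑ i ∈ Finset.range (n + 1), m i ≤ M ∧
        ∀ i ≤ n, lowP F (t i) (t (i + 1)) < ENNReal.ofReal (Real.pi ^ 2 * (m i + 1)) := by
  constructor
  · intro h
    obtain ⟨F, h1, h2⟩ := ((half_tfae S K M).out 0 1).1 h
    obtain ⟨t, ht⟩ := exists_level h1.1
    refine ⟨F, 0, t, fun _ => M, h1, ht, by simp, fun i hi => ?_⟩
    have h0 : i = 0 := by omega
    subst h0
    rw [lowP_one ht]
    exact h2
  · rintro ⟨F, n, t, m, h1, h2, h3, h4⟩
    obtain ⟨F', a1, a2, a3⟩ := half_low S K F n t m h1 h2 h4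
    exact ⟨F', a1, a2, a3.trans (by exact_mod_cast h3)⟩

/-- Willmore energy: the last part contains a local maximum. -/
theorem half_wil_ribbon (S : Type) [TopologicalSpace S] (K F : Set E4) (n : ℕ) (t : ℕ → ℝ)
    (m : ℕ → ℕ) (M : ℕ) (hF : HCls S K F) (hL : Levels F n t)
    (hM : ∑ i ∈ Finset.range (n + 1), m i ≤ M + 1)
    (hp : ∀ i ≤ n, wilP F (t i) (t (i + 1)) < ENNReal.ofReal (2 * Real.pi * (m i + 1))) :
    ∃ F', HCls S K F' ∧ MorseS F' ∧ nminS F' ≤ M := by
  obtain ⟨F', h1, h2, h3⟩ := half_wil S K F n t m hF hL hp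
  refine ⟨F', h1, h2, ?_⟩
  by_cases h0 : nminS F' = 0
  · rw [h0]; exact bot_le
  · have hne : (F' ∩ ups).Nonempty := by
      have h4 : {p | p ∈ F' ∩ ups ∧ IsLocalMinOn (fun x : E4 => x 3) F' p}.Nonempty := by
        rw [← Set.encard_ne_zero]
        exact h0
      obtain ⟨p, hp, -⟩ := h4
      exact ⟨p, hp⟩
    have h5 := one_le_nmax h1.1.compact hne
    have h6 : nminS F' + 1 ≤ (M : ℕ∞) + 1 := by
      refine (add_le_add le_rfl h5).trans (h3.trans ?_)
      exact_mod_cast hM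
    exact (ENat.add_le_add_iff_right (by simp)).1 h6

/-- Local minima along a cobordism of small lower total curvature. -/
theorem cobordism_low (A G : Set E4) (H : ℝ) (m : ℕ) (hA : Cob A H) (hG : HSurf G)
    (hM : MorseS G) (hm : Match A H G) (hlow : lowF A H < ENNReal.ofReal (Real.pi ^ 2 * (m + 1)))
    (S : Type) [TopologicalSpace S] (hS : Nonempty ((A ∪ up H G : Set E4) ≃ₜ S)) :
    ∃ F', HCls S (A ∩ {x | x 3 = 0}) F' ∧ MorseS F' ∧ nminS F' ≤ m + nminS G := by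
  obtain ⟨T, hT, hlt⟩ := cob_of hG
  rw [low_part] at hlow
  obtain ⟨A', H', a1, a2, a3, a4⟩ := rep_low A H m hA hlow
  have hm' := hm.transfer a2 (HT.refl G T)
  have h1 := cob_glue a1 hT hm'
  have h2 := HT.glue hA hT hm a1 hT a2 (HT.refl G T)
  have h3 := morse_glue a1 hT hm' a3 ((morse_eq hlt).2 hM)
  have h4 := nmin_glue a1 hT hm'
  have hlt0 : ∀ x ∈ A ∪ up H G, x 3 < H + T := by
    rintro x (hx | hx)
    · have h5 := (hA.sub hx).2
      have h6 := Cob.pos hT
      linarith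
    · have h5 := hlt _ (mem_up.1 hx)
      rw [svt] at h5
      linarith
  have hlt' := half_back hlt0 h2 h1
  obtain ⟨e⟩ := h2.homeo (cob_glue hA hT hm).compact
  obtain ⟨f⟩ := hS
  refine ⟨A' ∪ up H' G, ⟨half_of h1 hlt', ?_, ⟨e.symm.trans f⟩⟩, (morse_eq hlt').1 h3, ?_⟩
  · rw [h2.bot]
    ext x
    have hH := Cob.pos hA
    constructor
    · rintro ⟨h5, h6⟩
      have h6' : x 3 = 0 := h6
      exact ⟨(below hT hm (by rw [h6']; exact hH.le)).1 h5, h6⟩
    · rintro ⟨h5, h6⟩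
      exact ⟨Or.inl h5, h6⟩
  · rw [← nmin_eq hlt']
    refine h4.trans (add_le_add a4 ?_)
    rw [nmin_eq hlt]

end Pool.Agent.U548.CC
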