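import Mathlib
import Pool.Agent.U548.CC.Half

/-!
# The theorem of Milnor type in a slab, by vertical maps (helper548)

Adapted from `Pool.Agent.N15.SF.LIFTA`, `Pool.Agent.N15.SF.MainA` (helper15): the surfaces with
Morse height are obtained by vertical shears.
-/

set_option autoImplicit false

namespace Pool.Agent.U548.CC

open scoped ContDiff RealInnerProductSpace ENNReal NNReal Topology
open MeasureTheory Set Metric Filter
open Pool.Agent.Y503.RB Pool.Agent.N503.ML Pool.Agent.N15.RC Pool.Agent.N15.SF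

theorem SH2V : ∀ (g1 g2 : ℝ → ℝ) (H ε T T' : ℝ) (q : E4), GD g1 g2 H ε q →
  ∀ F : Set E4, Cob F H → F ⊆ Dom T T' q → 0 < T' →
  (∀ x : E4, 0 ≤ x 3 → x 3 ≤ ε → (x ∈ F ↔ x - (x 3) • vert ∈ F)) →
  (∀ x : E4, H - ε ≤ x 3 → x 3 ≤ H → (x ∈ F ↔ x + (H - x 3) • vert ∈ F)) →
  Cob (sh g1 g2 T T' q '' F) (H + T') ∧ SameType F H (sh g1 g2 T T' q '' F) (H + T') := sh2 sh1

theorem SH3V : ∀ (g1 g2 : ℝ → ℝ) (H ε T T' : ℝ) (q : E4), GD g1 g2 H ε q →
  ∀ F : Set E4, Cob F H → F ⊆ Dom T T' q →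
  (∀ x : E4, 0 ≤ x 3 → x 3 ≤ ε → (x ∈ F ↔ x - (x 3) • vert ∈ F)) →
  (∀ x : E4, H - ε ≤ x 3 → x 3 ≤ H → (x ∈ F ↔ x + (H - x 3) • vert ∈ F)) →
  (∀ p ∈ F ∩ oslab H, ∃ (φ : ℂ → E4) (U : Set ℂ) (V : Set E4) (z : ℂ), EPatch φ U ∧ IsOpen V ∧
    V ⊆ oslab H ∧ F ∩ V = φ '' U ∧ z ∈ U ∧ φ z = p ∧
    ((∀ v : ℂ, ⟪q + vert, d1 φ v z⟫ = 0) → kdet φ (q + vert) z ≠ 0)) →
  MorseF (sh g1 g2 T T' q '' F) (H + T') ∧
    nmaxF (sh g1 g2 T T' q '' F) (H + T') ≤ (LMax F H (q + vert)).encard ∧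
    nminF (sh g1 g2 T T' q '' F) (H + T') ≤ (LMin F H (q + vert)).encard := SH3.sh3 sh1 tan

/-- `HT`, by a map which moves the points of `F` vertically. -/
def VHT (F : Set E4) (H : ℝ) (F' : Set E4) (H' : ℝ) : Prop :=
  ∃ f : E4 → E4, ContinuousOn f F ∧ InjOn f F ∧ F' = f '' F ∧
    (∀ x ∈ F, x 3 = 0 → f x = x) ∧ (∀ x ∈ F, x 3 = H → f x = x + (H' - H) • vert) ∧
    (∀ x ∈ F, ((f x) 3 = 0 ↔ x 3 = 0) ∧ ((f x) 3 = H' ↔ x 3 = H)) ∧
    ∀ x ∈ F, ∃ s : ℝ, f x = x + s • vert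

theorem VHT.ht {F F' : Set E4} {H H' : ℝ} (h : VHT F H F' H') : HT F H F' H' := by
  obtain ⟨f, h1, h2, h3, h4, h5, h6, -⟩ := h
  exact ⟨f, h1, h2, h3, h4, h5, h6⟩

/-- The surface on which the height is the linear function `⟨y, ·⟩` outside of the collars, obtained
by a vertical shear (adapted from `Pool.Agent.N15.SF.LIFTA`). -/
theorem liftV (F : Set E4) (H : ℝ) (hF : Cob F H) (y : E4) (hy3 : y 3 = 1)
    (hyp : ∀ p ∈ F ∩ oslab H, ∃ (φ : ℂ → E4) (U : Set ℂ) (V : Set E4) (z : ℂ), EPatch φ U ∧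
      IsOpen V ∧ V ⊆ oslab H ∧ F ∩ V = φ '' U ∧ z ∈ U ∧ φ z = p ∧
      ((∀ v : ℂ, ⟪y, d1 φ v z⟫ = 0) → kdet φ y z ≠ 0)) :
    ∃ (F' : Set E4) (H' : ℝ), Cob F' H' ∧ VHT F H F' H' ∧ MorseF F' H' ∧
      nmaxF F' H' ≤ (LMax F H y).encard ∧ nminF F' H' ≤ (LMin F H y).encard := by
  obtain ⟨ε₀, he0, heH, hcol1, hcol2⟩ := hF.collar
  have hH : 0 < H := he0.trans heH
  obtain ⟨ε, hε⟩ : ∃ ε, ε = min ε₀ (H / 3) := ⟨_, rfl⟩
  have hε0 : 0 < ε := by rw [hε]; exact lt_min he0 (by positivity)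
  have hε1 : ε ≤ ε₀ := by rw [hε]; exact min_le_left _ _
  have hε2 : ε ≤ H / 3 := by rw [hε]; exact min_le_right _ _
  have hc1 : ∀ x : E4, 0 ≤ x 3 → x 3 ≤ ε → (x ∈ F ↔ x - (x 3) • vert ∈ F) := fun x h1 h2 =>
    hcol1 x h1 (h2.trans hε1)
  have hc2 : ∀ x : E4, H - ε ≤ x 3 → x 3 ≤ H → (x ∈ F ↔ x + (H - x 3) • vert ∈ F) :=
    fun x h1 h2 => hcol2 x (by linarith) h2
  obtain ⟨q, hq⟩ : ∃ q, q = y - vert := ⟨_, rfl⟩
  have hq3 : q 3 = 0 := by
    have : q 3 = y 3 - vert 3 := by rw [hq]; rfl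
    rw [this, hy3, vert_three, sub_self]
  have hqy : q + vert = y := by rw [hq, sub_add_cancel]
  obtain ⟨B, hB⟩ := hF.compact.exists_bound_of_continuousOn
    (f := fun x : E4 => ⟪q, x⟫) (innerSL ℝ q).continuous.continuousOn
  obtain ⟨T, hT⟩ : ∃ T, T = |B| + 1 := ⟨_, rfl⟩
  obtain ⟨T', hT'⟩ : ∃ T', T' = 2 * |B| + 2 := ⟨_, rfl⟩
  have hB0 := abs_nonneg B
  have hT'0 : 0 < T' := by rw [hT']; linarith
  have hFD : F ⊆ Dom T T' q := by
    intro x hx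
    have h1 := hB x hx
    rw [Real.norm_eq_abs] at h1
    have h2 := abs_le.1 (h1.trans (le_abs_self B))
    constructor
    · rw [hT]; linarith [h2.1]
    · rw [hT, hT']; linarith [h2.2]
  set g1 : ℝ → ℝ := fun t => Real.smoothTransition (4 / ε * t - 1) with hg1
  set g2 : ℝ → ℝ := fun t => Real.smoothTransition (4 / ε * (t - (H - ε / 2))) with hg2
  have h4 : 0 ≤ 4 / ε := by positivity
  have hGD : GD g1 g2 H ε q := by
    refine ⟨hε0, by linarith, Real.smoothTransition.contDiff.comp (by fun_prop),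
      Real.smoothTransition.contDiff.comp (by fun_prop), ?_, ?_, ?_, ?_, ?_, ?_, hq3⟩
    · intro a b hab
      refine Real.smoothTransition.monotone ?_
      have := mul_le_mul_of_nonneg_left hab h4
      linarith
    · intro a b hab
      refine Real.smoothTransition.monotone (mul_le_mul_of_nonneg_left (by linarith) h4)
    · intro t ht
      refine Real.smoothTransition.zero_of_nonpos ?_
      have : 4 / ε * t ≤ 1 := by
        rw [div_mul_eq_mul_div, div_le_one hε0]; linarith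
      linarith
    · intro t ht
      refine Real.smoothTransition.one_of_one_le ?_
      have : 2 ≤ 4 / ε * t := by
        rw [div_mul_eq_mul_div, le_div_iff₀ hε0]; linarith
      linarith
    · intro t ht
      exact Real.smoothTransition.zero_of_nonpos
        (mul_nonpos_of_nonneg_of_nonpos h4 (by linarith))
    · intro t ht
      refine Real.smoothTransition.one_of_one_le ?_
      rw [div_mul_eq_mul_div, le_div_iff₀ hε0]; linarith
  obtain ⟨a1, a2⟩ := SH2V g1 g2 H ε T T' q hGD F hF hFD hT'0 hc1 hc2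
  obtain ⟨b1, b2, b3⟩ := SH3V g1 g2 H ε T T' q hGD F hF hFD hc1 hc2 (by
    rw [hqy]
    exact hyp)
  rw [hqy] at b2 b3
  obtain ⟨s1, s2, -, -, -, s6⟩ := sh1 g1 g2 H ε T T' q hGD
  have e0 : ∀ x : E4, x 3 = 0 → sh g1 g2 T T' q x = x := by
    intro x hx
    unfold sh
    rw [hx, hGD.z1 0 (by linarith), hGD.z2 0 (by linarith)]
    simp
  have eH : ∀ x : E4, x 3 = H → sh g1 g2 T T' q x = x + T' • vert := by
    intro x hx
    unfold sh
    rw [hx, hGD.o2 H (by linarith)]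
    simp
  refine ⟨_, _, a1, ⟨sh g1 g2 T T' q, s1.continuous.continuousOn, s2.mono hFD, rfl,
    fun x _ hx => e0 x hx, fun x _ hx => ?_, fun x hx => ?_, fun x _ => ⟨_, rfl⟩⟩, b1, b2, b3⟩
  · rw [eH x hx]
    congr 2
    ring
  · obtain ⟨h1, h2⟩ := hF.sub hx
    rcases eq_or_lt_of_le h1 with h3 | h3
    · have h3' : x 3 = 0 := h3.symm
      rw [e0 x h3', h3']
      refine ⟨Iff.rfl, ?_⟩
      constructor
      · intro h4; linarith
      · intro h4; linarith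
    · rcases eq_or_lt_of_le h2 with h4 | h4
      · rw [eH x h4, avt, h4]
        constructor
        · constructor
          · intro h5; linarith
          · intro h5; linarith
        · exact ⟨fun _ => rfl, fun _ => rfl⟩
      · have h5 := (s6 x (hFD hx)).2.2 ⟨h3, h4⟩
        constructor
        · constructor
          · intro h6; linarith [h5.1]
          · intro h6; linarith
        · constructor
          · intro h6; linarith [h5.2]
          · intro h6; linarith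

/-- From curvature to extrema, by a vertical map (adapted from `Pool.Agent.N15.SF.MainA`). -/
theorem mainV (F : Set E4) (H : ℝ) (hF : Cob F H) (a b : ℝ≥0) (η : ℝ) (hη : 0 < η) :
    ∃ (F' : Set E4) (H' : ℝ), Cob F' H' ∧ VHT F H F' H' ∧ MorseF F' H' ∧
      ENNReal.ofReal (Real.pi ^ 2) * (a * (nminF F' H' : ℝ≥0∞) + b * (nmaxF F' H' : ℝ≥0∞)) ≤
        a * lowF F H + b * uppF F H + ENNReal.ofReal η := by
  obtain ⟨ψ, Uψ, Vψ, hψ1, hψ2⟩ := lp F H hF
  have hne : ∃ (φ : ℕ → ℂ → E4) (U : ℕ → Set ℂ) (A : ℕ → Set ℂ), Cover F H φ U A := by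
    refine ⟨ψ, Uψ, Uψ, fun i => (hψ1 i).1.ipatch, fun i => ?_, fun i => (hψ1 i).1.isOpen.measurableSet,
      fun i => subset_rfl, hψ2⟩
    rw [← (hψ1 i).2.2.1]
    exact inter_subset_left
  have hab : (0 : ℝ) < a + b + 1 := by positivity
  have hη' : ENNReal.ofReal (η / (a + b + 1)) ≠ 0 := by
    rw [Ne, ENNReal.ofReal_eq_zero, not_le]; positivity
  obtain ⟨φ1, U1, A1, hC1, hK1⟩ := exists_cover hne
    (fun φ A => ∑' i, ∫⁻ z in A i, curvE (φ i) z) hη'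
  obtain ⟨φ2, U2, A2, hC2, hK2⟩ := exists_cover hne
    (fun φ A => ∑' i, ∫⁻ z in A i, curvL (φ i) z) hη'
  obtain ⟨c, hc1, hc2, hc3, -, -⟩ := cnt' φ1 U1 A1 hC1.patch hC1.meas hC1.sub'
  obtain ⟨d, hd1, hd2, hd3, -, -⟩ := cnt' (fun i => opp (φ2 i)) U2 A2
    (fun i => ipatch_opp (hC2.patch i)) hC2.meas hC2.sub'
  choose Z1 hZ1 hZ1' using fun i => sard (hC1.patch i)
  choose Z2 hZ2 hZ2' using fun i => sard (hC2.patch i)
  choose Z3 hZ3 hZ3' using fun i => sard (hψ1 i).1.ipatch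
  have hZ : volume ((⋃ i, Z1 i) ∪ (⋃ i, Z2 i) ∪ (⋃ i, Z3 i)) = 0 :=
    measure_union_null (measure_union_null (measure_iUnion_null hZ1) (measure_iUnion_null hZ2))
      (measure_iUnion_null hZ3)
  obtain ⟨y, hyH, hyZ, hy⟩ := mean_dir hc1 hd1
    (C := uppF F H + ENNReal.ofReal (η / (a + b + 1)))
    (D := lowF F H + ENNReal.ofReal (η / (a + b + 1)))
    (by rw [hc2]; exact mul_le_mul_right hK1 _)
    (by
      rw [hd2]
      refine mul_le_mul_right ?_ _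
      simp only [curvE_opp]
      exact hK2) a b hZ
  simp only [mem_union, mem_iUnion, not_or, not_exists] at hyZ
  obtain ⟨⟨hy1, hy2⟩, hy3'⟩ := hyZ
  have hy0 : y ≠ 0 := by
    rintro rfl
    exact lt_irrefl _ hyH.2
  have hr : 0 < (y 3)⁻¹ := inv_pos.2 hyH.2
  obtain ⟨y', hy'⟩ : ∃ y', y' = (y 3)⁻¹ • y := ⟨_, rfl⟩
  have hy'3 : y' 3 = 1 := by
    rw [hy']
    show (y 3)⁻¹ * y 3 = 1
    exact inv_mul_cancel₀ hyH.2.ne'
  have hscale : ∀ (χ : ℂ → E4) (z : ℂ), ((∀ v : ℂ, ⟪y, d1 χ v z⟫ = 0) → kdet χ y z ≠ 0) →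
      (∀ v : ℂ, ⟪y', d1 χ v z⟫ = 0) → kdet χ y' z ≠ 0 := by
    intro χ z h hv
    rw [hy', kdet_smul]
    refine mul_ne_zero (by positivity) (h fun v => ?_)
    have := hv v
    rw [hy', real_inner_smul_left] at this
    exact (mul_eq_zero.1 this).resolve_left hr.ne'
  obtain ⟨F', H', g1, g2, g3, g4, g5⟩ := liftV F H hF y' hy'3 (by
    intro p hp
    obtain ⟨i, hi⟩ := mem_iUnion.1 (hψ2 hp)
    obtain ⟨z, hz, hzp⟩ := hi
    exact ⟨ψ i, Uψ i, Vψ i, z, (hψ1 i).1, (hψ1 i).2.1, (hψ1 i).2.2.2, (hψ1 i).2.2.1, hz, hzp,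
      hscale _ z (hZ3' i y (hy3' i) hy0 z hz)⟩)
  refine ⟨F', H', g1, g2, g3, ?_⟩
  have hmax : ((nmaxF F' H' : ℕ∞) : ℝ≥0∞) ≤ c y := by
    refine le_trans (b := (((LMax F H y').encard : ℕ∞) : ℝ≥0∞)) (by exact_mod_cast g4) ?_
    refine enc_le hC1 (χ := φ1) (y := y) (fun p hp => ⟨hp.1, ?_⟩) (hc3 y hyH.1)
    intro i z hz hzp
    have h1 := crit_max (hC1.patch i) (hC1.sub i) hz (y := y') (by rw [hy'3]; exact one_pos)
      (hscale _ z (hZ1' i y (hy1 i) hy0 z hz)) (by rw [hzp]; exact hp.2)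
    rw [hy'] at h1
    exact (critCap_smul hr).1 h1
  have hmin : ((nminF F' H' : ℕ∞) : ℝ≥0∞) ≤ d y := by
    refine le_trans (b := (((LMin F H y').encard : ℕ∞) : ℝ≥0∞)) (by exact_mod_cast g5) ?_
    refine enc_le hC2 (χ := fun i => opp (φ2 i)) (y := y) (fun p hp => ⟨hp.1, ?_⟩) (hd3 y hyH.1)
    intro i z hz hzp
    have h1 := crit_min (hC2.patch i) (hC2.sub i) hz (y := y') (by rw [hy'3]; exact one_pos)
      (hscale _ z (hZ2' i y (hy2 i) hy0 z hz)) (by rw [hzp]; exact hp.2)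
    rw [hy'] at h1
    exact (critCap_smul hr).1 h1
  refine le_trans (mul_le_mul_right (add_le_add (mul_le_mul_right hmin _)
    (mul_le_mul_right hmax _)) _) (hy.trans ?_)
  have h5 : (a : ℝ≥0∞) * ENNReal.ofReal (η / (a + b + 1)) +
      b * ENNReal.ofReal (η / (a + b + 1)) ≤ ENNReal.ofReal η := by
    rw [← add_mul, ← ENNReal.coe_add, ← ENNReal.ofReal_coe_nnreal,
      ← ENNReal.ofReal_mul (by positivity)]
    apply ENNReal.ofReal_le_ofReal
    push_cast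
    rw [← mul_div_assoc, div_le_iff₀ hab]
    nlinarith
  calc (a : ℝ≥0∞) * (lowF F H + ENNReal.ofReal (η / (a + b + 1))) +
        b * (uppF F H + ENNReal.ofReal (η / (a + b + 1)))
      = a * lowF F H + b * uppF F H + (a * ENNReal.ofReal (η / (a + b + 1)) +
        b * ENNReal.ofReal (η / (a + b + 1))) := by ring
    _ ≤ _ := by gcongr


end Pool.Agent.U548.CC
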