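import Mathlib
import Pool.Agent.U548.CC.Vert

/-!
# Surfaces cut by horizontal levels and vertical walls (helper548)
-/

set_option autoImplicit false

namespace Pool.Agent.U548.CC

open scoped ContDiff RealInnerProductSpace ENNReal NNReal Topology
open MeasureTheory Set Metric Filter
open Pool.Agent.Y503.RB Pool.Agent.N503.ML Pool.Agent.N15.RC Pool.Agent.N15.SF

/-! ### Stretched surfaces -/

theorem VHT.trans {F F' F'' : Set E4} {H H' H'' : ℝ} (h : VHT F H F' H') (h' : VHT F' H' F'' H'') :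
    VHT F H F'' H'' := by
  obtain ⟨f, f1, f2, rfl, f4, f5, f6, f7⟩ := h
  obtain ⟨g, g1, g2, rfl, g4, g5, g6, g7⟩ := h'
  have hm : MapsTo f F (f '' F) := mapsTo_image f F
  refine ⟨g ∘ f, g1.comp f1 hm, g2.comp f2 hm, by rw [image_comp], fun x hx h0 => ?_,
    fun x hx h0 => ?_, fun x hx => ?_, fun x hx => ?_⟩
  · rw [Function.comp_apply, g4 _ (hm hx) ((f6 x hx).1.2 h0), f4 x hx h0]
  · rw [Function.comp_apply, g5 _ (hm hx) ((f6 x hx).2.2 h0), f5 x hx h0]
    module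
  · exact ⟨(g6 _ (hm hx)).1.trans (f6 x hx).1, (g6 _ (hm hx)).2.trans (f6 x hx).2⟩
  · obtain ⟨s, hs⟩ := f7 x hx
    obtain ⟨s', hs'⟩ := g7 _ (hm hx)
    refine ⟨s + s', ?_⟩
    rw [Function.comp_apply, hs', hs]
    module

theorem lam_vht {F : Set E4} {H l : ℝ} (hl : 0 < l) : VHT F H (lam l '' F) (l * H) := by
  refine ⟨lam l, (lam l).continuous.continuousOn, (lam_inj hl).injOn, rfl, fun x _ hx => ?_,
    fun x _ hx => ?_, fun x _ => ?_, fun x _ => ⟨_, lam_apply l x⟩⟩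
  · rw [lam_apply, hx, mul_zero, zero_smul, add_zero]
  · rw [lam_apply, hx]
    congr 2
    ring
  · rw [lam_three]
    constructor
    · exact ⟨fun h => (mul_eq_zero.1 h).resolve_left hl.ne', fun h => by rw [h, mul_zero]⟩
    · exact ⟨fun h => mul_left_cancel₀ hl.ne' h, fun h => by rw [h]⟩

theorem lam_morse {F : Set E4} {H l : ℝ} (hl : 0 < l) (hM : MorseF F H) :
    MorseF (lam l '' F) (l * H) := by
  rintro _ ⟨⟨p, hp, rfl⟩, h0, h1⟩
  rw [lam_three] at h0 h1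
  obtain ⟨φ, U, V, z, hP, hV, hpV, hFV, hz, hzp, hm⟩ := hM p
    ⟨hp, (mul_pos_iff_of_pos_left hl).1 h0, lt_of_mul_lt_mul_left h1 hl.le⟩
  refine ⟨fun w => lam l (φ w), U, lam l '' V, z, epatch_lam hP hl, ?_, ⟨p, hpV, rfl⟩, ?_, hz,
    ?_, ?_⟩
  · have h1 : lam l '' V = lam l⁻¹ ⁻¹' V := by
      ext x
      exact mem_lam_image hl V x
    rw [h1]
    exact hV.preimage (lam l⁻¹).continuous
  · rw [← image_inter (lam_inj hl), hFV, image_image]
  · show lam l (φ z) = lam l p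
    rw [hzp]
  · have e1 : (fun w => (lam l (φ w)) 3) = l • fun w => φ w 3 := funext fun w => lam_three l _
    have e2 : fderiv ℝ (l • fun w => φ w 3) = l • fderiv ℝ (fun w => φ w 3) :=
      fderiv_const_smul_field l
    have hg : ∀ g : ℂ → (ℂ →L[ℝ] ℝ), fderiv ℝ (l • g) = l • fderiv ℝ g := fun g => by
      have h5 := fderiv_const_smul_field (𝕜 := ℝ) (f := g) l
      exact h5
    have e3 : fderiv ℝ (l • fderiv ℝ (fun w => φ w 3)) = l • fderiv ℝ (fderiv ℝ (fun w => φ w 3)) :=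
      hg _
    rw [e1, e2, e3]
    intro h2 u hu
    refine hm ?_ u fun v => ?_
    · have h3 : l • fderiv ℝ (fun w => φ w 3) z = 0 := h2
      exact (smul_eq_zero.1 h3).resolve_left hl.ne'
    · have h3 : l • (fderiv ℝ (fderiv ℝ (fun w => φ w 3)) z u v) = 0 := hu v
      exact (smul_eq_zero.1 h3).resolve_left hl.ne'

theorem lam_tendsto (l : ℝ) (F : Set E4) (p : E4) :
    Tendsto (lam l) (𝓝[F] p) (𝓝[lam l '' F] (lam l p)) := by
  refine tendsto_nhdsWithin_iff.2 ⟨?_, ?_⟩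
  · exact ((lam l).continuous.tendsto p).mono_left nhdsWithin_le_nhds
  · filter_upwards [self_mem_nhdsWithin] with x hx
    exact ⟨x, hx, rfl⟩

theorem lam_nmin {F : Set E4} {H l : ℝ} (hl : 0 < l) : nminF (lam l '' F) (l * H) ≤ nminF F H := by
  have hsub : {p | p ∈ lam l '' F ∩ oslab (l * H) ∧
      IsLocalMinOn (fun x : E4 => x 3) (lam l '' F) p} ⊆
      lam l '' {p | p ∈ F ∩ oslab H ∧ IsLocalMinOn (fun x : E4 => x 3) F p} := by
    rintro _ ⟨⟨⟨p, hp, rfl⟩, h0, h1⟩, hM⟩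
    rw [lam_three] at h0 h1
    refine ⟨p, ⟨⟨hp, (mul_pos_iff_of_pos_left hl).1 h0, lt_of_mul_lt_mul_left h1 hl.le⟩, ?_⟩, rfl⟩
    have h2 : ∀ᶠ x in 𝓝[lam l '' F] (lam l p), (lam l p) 3 ≤ x 3 := hM
    have h3 := (lam_tendsto l F p).eventually h2
    show ∀ᶠ x in 𝓝[F] p, p 3 ≤ x 3
    filter_upwards [h3] with x hx
    rw [lam_three, lam_three] at hx
    exact le_of_mul_le_mul_left hx hl
  unfold nminF
  exact (encard_le_encard hsub).trans (encard_image_le _ _)

/-- Lower total curvature and local minima, by a vertical map, with height one. -/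
theorem repV_low (F : Set E4) (H : ℝ) (m : ℕ) (hF : Cob F H)
    (h : lowF F H < ENNReal.ofReal (Real.pi ^ 2 * (m + 1))) :
    ∃ F', Cob F' 1 ∧ VHT F H F' 1 ∧ MorseF F' 1 ∧ nminF F' 1 ≤ m := by
  obtain ⟨η, hη, hη2⟩ := exists_eta h
  obtain ⟨F', H', a1, a2, a3, a4⟩ := mainV F H hF 1 0 η hη
  have hH' := Cob.pos a1
  have hl : 0 < H'⁻¹ := inv_pos.2 hH'
  have e : H'⁻¹ * H' = 1 := inv_mul_cancel₀ hH'.ne'
  have b1 := (lamc F' H' a1 H'⁻¹ hl).1
  have b2 := a2.trans (lam_vht (F := F') (H := H') hl)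
  have b3 := lam_morse hl a3
  have b4 := lam_nmin (F := F') (H := H') hl
  rw [e] at b1 b2 b3 b4
  refine ⟨_, b1, b2, b3, b4.trans (nat_of_lt ?_)⟩
  simp only [ENNReal.coe_one, ENNReal.coe_zero, one_mul, zero_mul, add_zero] at a4
  exact a4.trans_lt hη2

/-! ### Disjoint unions -/

section union

variable {F G : Set E4} {H : ℝ}

theorem cob_empty {H : ℝ} (hH : 0 < H) : Cob ∅ H :=
  ⟨isCompact_empty, empty_subset _, fun p hp => absurd hp (notMem_empty p), H / 2, by linarith,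
    by linarith, fun _ _ _ => by simp, fun _ _ _ => by simp⟩

theorem cob_union (hF : Cob F H) (hG : Cob G H) (hd : Disjoint F G) : Cob (F ∪ G) H := by
  refine ⟨hF.compact.union hG.compact, union_subset hF.sub hG.sub, ?_, ?_⟩
  · rintro p (hp | hp)
    · obtain ⟨φ, U, V, hP, hV, hpV, hFV⟩ := hF.loc p hp
      have hGo : IsOpen Gᶜ := hG.compact.isClosed.isOpen_compl
      refine ⟨φ, U ∩ φ ⁻¹' Gᶜ, V ∩ Gᶜ, hP.restrict
        (hP.smooth.continuousOn.isOpen_inter_preimage hP.isOpen hGo) inter_subset_left,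
        hV.inter hGo, ⟨hpV, disjoint_left.1 hd hp⟩, ?_⟩
      ext x
      constructor
      · rintro ⟨hx | hx, hx2, hx3⟩
        · have h1 : x ∈ F ∩ V := ⟨hx, hx2⟩
          rw [hFV] at h1
          obtain ⟨⟨z, hz, rfl⟩, h2⟩ := h1
          exact ⟨⟨z, ⟨hz, hx3⟩, rfl⟩, h2⟩
        · exact absurd hx hx3
      · rintro ⟨⟨z, ⟨hz, hz2⟩, rfl⟩, h2⟩
        have h1 : φ z ∈ F ∩ V := by
          rw [hFV]
          exact ⟨⟨z, hz, rfl⟩, h2⟩
        exact ⟨Or.inl h1.1, h1.2, hz2⟩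
    · obtain ⟨φ, U, V, hP, hV, hpV, hFV⟩ := hG.loc p hp
      have hGo : IsOpen Fᶜ := hF.compact.isClosed.isOpen_compl
      refine ⟨φ, U ∩ φ ⁻¹' Fᶜ, V ∩ Fᶜ, hP.restrict
        (hP.smooth.continuousOn.isOpen_inter_preimage hP.isOpen hGo) inter_subset_left,
        hV.inter hGo, ⟨hpV, disjoint_right.1 hd hp⟩, ?_⟩
      ext x
      constructor
      · rintro ⟨hx | hx, hx2, hx3⟩
        · exact absurd hx hx3
        · have h1 : x ∈ G ∩ V := ⟨hx, hx2⟩
          rw [hFV] at h1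
          obtain ⟨⟨z, hz, rfl⟩, h2⟩ := h1
          exact ⟨⟨z, ⟨hz, hx3⟩, rfl⟩, h2⟩
      · rintro ⟨⟨z, ⟨hz, hz2⟩, rfl⟩, h2⟩
        have h1 : φ z ∈ G ∩ V := by
          rw [hFV]
          exact ⟨⟨z, hz, rfl⟩, h2⟩
        exact ⟨Or.inr h1.1, h1.2, hz2⟩
  · obtain ⟨ε, he, heH, h1, h2⟩ := hF.collar
    obtain ⟨ε', he', heH', h1', h2'⟩ := hG.collar
    have e1 := min_le_left ε ε'
    have e2 := min_le_right ε ε'
    refine ⟨min ε ε', lt_min he he', by linarith, fun x a b => ?_, fun x a b => ?_⟩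
    · rw [mem_union, mem_union, h1 x a (by linarith), h1' x a (by linarith)]
    · rw [mem_union, mem_union, h2 x (by linarith) b, h2' x (by linarith) b]

theorem morse_union (hF : Cob F H) (hG : Cob G H) (hd : Disjoint F G) (h1 : MorseF F H)
    (h2 : MorseF G H) : MorseF (F ∪ G) H := by
  rintro p ⟨hp | hp, hps⟩
  · obtain ⟨φ, U, V, z, hP, hV, hpV, hFV, hz, hzp, hm⟩ := h1 p ⟨hp, hps⟩
    have hGo : IsOpen Gᶜ := hG.compact.isClosed.isOpen_compl
    refine ⟨φ, U ∩ φ ⁻¹' Gᶜ, V ∩ Gᶜ, z, hP.restrict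
      (hP.smooth.continuousOn.isOpen_inter_preimage hP.isOpen hGo) inter_subset_left,
      hV.inter hGo, ⟨hpV, disjoint_left.1 hd hp⟩, ?_, ⟨hz, ?_⟩, hzp, hm⟩
    · ext x
      constructor
      · rintro ⟨hx | hx, hx2, hx3⟩
        · have h1 : x ∈ F ∩ V := ⟨hx, hx2⟩
          rw [hFV] at h1
          obtain ⟨w, hw, rfl⟩ := h1
          exact ⟨w, ⟨hw, hx3⟩, rfl⟩
        · exact absurd hx hx3
      · rintro ⟨w, ⟨hw, hw2⟩, rfl⟩
        have h1 : φ w ∈ F ∩ V := by
          rw [hFV]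
          exact ⟨w, hw, rfl⟩
        exact ⟨Or.inl h1.1, h1.2, hw2⟩
    · show φ z ∈ Gᶜ
      rw [hzp]
      exact disjoint_left.1 hd hp
  · obtain ⟨φ, U, V, z, hP, hV, hpV, hFV, hz, hzp, hm⟩ := h2 p ⟨hp, hps⟩
    have hGo : IsOpen Fᶜ := hF.compact.isClosed.isOpen_compl
    refine ⟨φ, U ∩ φ ⁻¹' Fᶜ, V ∩ Fᶜ, z, hP.restrict
      (hP.smooth.continuousOn.isOpen_inter_preimage hP.isOpen hGo) inter_subset_left,
      hV.inter hGo, ⟨hpV, disjoint_right.1 hd hp⟩, ?_, ⟨hz, ?_⟩, hzp, hm⟩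
    · ext x
      constructor
      · rintro ⟨hx | hx, hx2, hx3⟩
        · exact absurd hx hx3
        · have h1 : x ∈ G ∩ V := ⟨hx, hx2⟩
          rw [hFV] at h1
          obtain ⟨w, hw, rfl⟩ := h1
          exact ⟨w, ⟨hw, hx3⟩, rfl⟩
      · rintro ⟨w, ⟨hw, hw2⟩, rfl⟩
        have h1 : φ w ∈ G ∩ V := by
          rw [hFV]
          exact ⟨w, hw, rfl⟩
        exact ⟨Or.inr h1.1, h1.2, hw2⟩
    · show φ z ∈ Fᶜ
      rw [hzp]
      exact disjoint_right.1 hd hp

theorem nmin_union : nminF (F ∪ G) H ≤ nminF F H + nminF G H := by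
  have hsub : {p | p ∈ (F ∪ G) ∩ oslab H ∧ IsLocalMinOn (fun x : E4 => x 3) (F ∪ G) p} ⊆
      {p | p ∈ F ∩ oslab H ∧ IsLocalMinOn (fun x : E4 => x 3) F p} ∪
      {p | p ∈ G ∩ oslab H ∧ IsLocalMinOn (fun x : E4 => x 3) G p} := by
    rintro p ⟨⟨hp | hp, hps⟩, hM⟩
    · exact Or.inl ⟨⟨hp, hps⟩, hM.on_subset subset_union_left⟩
    · exact Or.inr ⟨⟨hp, hps⟩, hM.on_subset subset_union_right⟩
  unfold nminF
  exact (encard_le_encard hsub).trans (encard_union_le _ _)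

theorem ht_union {F' G' : Set E4} {H' : ℝ} (hF : Cob F H) (hG : Cob G H) (hd : Disjoint F G)
    (hd' : Disjoint F' G') (h1 : HT F H F' H') (h2 : HT G H G' H') :
    HT (F ∪ G) H (F' ∪ G') H' := by
  classical
  obtain ⟨f, f1, f2, rfl, f4, f5, f6⟩ := h1
  obtain ⟨g, g1, g2, rfl, g4, g5, g6⟩ := h2
  obtain ⟨k, hk⟩ : ∃ k : E4 → E4, k = fun x => if x ∈ F then f x else g x := ⟨_, rfl⟩
  have k1 : ∀ x ∈ F, k x = f x := fun x hx => by rw [hk]; exact if_pos hx
  have k2 : ∀ x ∈ G, k x = g x := fun x hx => by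
    rw [hk]; exact if_neg (disjoint_right.1 hd hx)
  refine ⟨k, (f1.congr k1).union_of_isClosed (g1.congr k2) hF.compact.isClosed
    hG.compact.isClosed, ?_, ?_, ?_, ?_, ?_⟩
  · rintro x (hx | hx) y (hy | hy) h
    · rw [k1 x hx, k1 y hy] at h
      exact f2 hx hy h
    · rw [k1 x hx, k2 y hy] at h
      exact absurd (h ▸ mem_image_of_mem g hy) (disjoint_left.1 hd' (mem_image_of_mem f hx))
    · rw [k2 x hx, k1 y hy] at h
      exact absurd (h ▸ mem_image_of_mem g hx) (disjoint_left.1 hd' (mem_image_of_mem f hy))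
    · rw [k2 x hx, k2 y hy] at h
      exact g2 hx hy h
  · rw [image_union]
    congr 1
    · exact image_congr fun x hx => (k1 x hx).symm
    · exact image_congr fun x hx => (k2 x hx).symm
  · rintro x (hx | hx) h0
    · rw [k1 x hx]; exact f4 x hx h0
    · rw [k2 x hx]; exact g4 x hx h0
  · rintro x (hx | hx) h0
    · rw [k1 x hx]; exact f5 x hx h0
    · rw [k2 x hx]; exact g5 x hx h0
  · rintro x (hx | hx)
    · rw [k1 x hx]; exact f6 x hx
    · rw [k2 x hx]; exact g6 x hx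

end union

/-! ### Cells -/

/-- Open sets of the form `B × ℝ`. -/
def Wall (B : Set E4) : Prop := IsOpen B ∧ ∀ x : E4, ∀ s : ℝ, x ∈ B → x + s • vert ∈ B

theorem Wall.iff {B : Set E4} (h : Wall B) (x : E4) (s : ℝ) : x + s • vert ∈ B ↔ x ∈ B := by
  constructor
  · intro h1
    have h2 := h.2 _ (-s) h1
    rwa [neg_smul, add_neg_cancel_right] at h2
  · exact h.2 x s

theorem Wall.iff' {B : Set E4} (h : Wall B) (x : E4) (s : ℝ) : x - s • vert ∈ B ↔ x ∈ B := by
  have := h.iff x (-s)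
  rwa [neg_smul, ← sub_eq_add_neg] at this

theorem cob_cell {P : Set E4} {H : ℝ} (hP : Cob P H) {B : Set E4} (hB : Wall B)
    (hc : IsClosed (P ∩ B)) : Cob (P ∩ B) H := by
  refine ⟨hP.compact.of_isClosed_subset hc inter_subset_left, fun x hx => hP.sub hx.1, ?_, ?_⟩
  · rintro p ⟨hp, hpB⟩
    obtain ⟨φ, U, V, hE, hV, hpV, hFV⟩ := hP.loc p hp
    refine ⟨φ, U ∩ φ ⁻¹' B, V ∩ B, hE.restrict
      (hE.smooth.continuousOn.isOpen_inter_preimage hE.isOpen hB.1) inter_subset_left,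
      hV.inter hB.1, ⟨hpV, hpB⟩, ?_⟩
    ext x
    constructor
    · rintro ⟨⟨hx1, -⟩, hx2, hx3⟩
      have h1 : x ∈ P ∩ V := ⟨hx1, hx2⟩
      rw [hFV] at h1
      obtain ⟨⟨z, hz, rfl⟩, h2⟩ := h1
      exact ⟨⟨z, ⟨hz, hx3⟩, rfl⟩, h2⟩
    · rintro ⟨⟨z, ⟨hz, hz2⟩, rfl⟩, h2⟩
      have h1 : φ z ∈ P ∩ V := by
        rw [hFV]
        exact ⟨⟨z, hz, rfl⟩, h2⟩
      exact ⟨⟨h1.1, hz2⟩, h1.2, hz2⟩
  · obtain ⟨ε, he, heH, h1, h2⟩ := hP.collar
    refine ⟨ε, he, heH, fun x a b => ?_, fun x a b => ?_⟩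
    · rw [mem_inter_iff, mem_inter_iff, hB.iff', h1 x a b]
    · rw [mem_inter_iff, mem_inter_iff, hB.iff, h2 x a b]

/-- One slab cut by vertical walls. -/
theorem rep_cells {P : Set E4} {H : ℝ} (hP : Cob P H) (r : ℕ) (B : ℕ → Set E4) (m : ℕ → ℕ)
    (hW : ∀ j < r, Wall (B j)) (hd : ∀ i < r, ∀ j < r, i ≠ j → Disjoint (B i) (B j))
    (hcov : P ⊆ ⋃ j, ⋃ (_ : j < r), B j)
    (hlow : ∀ j < r, lowF (P ∩ B j) H < ENNReal.ofReal (Real.pi ^ 2 * (m j + 1))) :
    ∃ P', Cob P' 1 ∧ HT P H P' 1 ∧ MorseF P' 1 ∧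
      nminF P' 1 ≤ ((∑ j ∈ Finset.range r, m j : ℕ) : ℕ∞) := by
  have hH := Cob.pos hP
  have hcl : ∀ j < r, IsClosed (P ∩ B j) := by
    intro j hj
    have e : P ∩ B j = P \ ⋃ i, ⋃ (_ : i < r ∧ i ≠ j), B i := by
      ext x
      constructor
      · rintro ⟨h1, h2⟩
        refine ⟨h1, fun h3 => ?_⟩
        obtain ⟨i, h4⟩ := mem_iUnion.1 h3
        obtain ⟨⟨h5, h6⟩, h7⟩ := mem_iUnion.1 h4
        exact disjoint_left.1 (hd i h5 j hj h6) h7 h2
      · rintro ⟨h1, h2⟩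
        refine ⟨h1, ?_⟩
        obtain ⟨i, h4⟩ := mem_iUnion.1 (hcov h1)
        obtain ⟨h5, h6⟩ := mem_iUnion.1 h4
        by_cases h7 : i = j
        · rwa [h7] at h6
        · exact absurd (mem_iUnion.2 ⟨i, mem_iUnion.2 ⟨⟨h5, h7⟩, h6⟩⟩) h2
    rw [e]
    refine hP.compact.isClosed.sdiff (isOpen_iUnion fun i => isOpen_iUnion fun hi => (hW i hi.1).1)
  have key : ∀ s, s ≤ r → ∃ P', Cob P' 1 ∧ Cob (P ∩ ⋃ j, ⋃ (_ : j < s), B j) H ∧
      HT (P ∩ ⋃ j, ⋃ (_ : j < s), B j) H P' 1 ∧ MorseF P' 1 ∧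
      nminF P' 1 ≤ ((∑ j ∈ Finset.range s, m j : ℕ) : ℕ∞) ∧ P' ⊆ ⋃ j, ⋃ (_ : j < s), B j := by
    intro s
    induction s with
    | zero =>
      intro _
      have e : P ∩ ⋃ j, ⋃ (_ : j < 0), B j = ∅ := by simp
      rw [e]
      refine ⟨∅, cob_empty one_pos, cob_empty hH, ⟨id, continuousOn_empty _, injOn_empty _,
        (image_empty _).symm, fun x hx => absurd hx (notMem_empty x),
        fun x hx => absurd hx (notMem_empty x), fun x hx => absurd hx (notMem_empty x)⟩,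
        fun p hp => absurd hp.1 (notMem_empty p), ?_, empty_subset _⟩
      unfold nminF
      simp
    | succ s ih =>
      intro hs
      obtain ⟨P', a1, a2, a3, a4, a5, a6⟩ := ih (by omega)
      have hcs := cob_cell hP (hW s (by omega)) (hcl s (by omega))
      obtain ⟨Q, b1, b2, b3, b4⟩ := repV_low _ H (m s) hcs (hlow s (by omega))
      have hQ : Q ⊆ B s := by
        obtain ⟨f, -, -, rfl, -, -, -, f7⟩ := b2
        rintro _ ⟨x, hx, rfl⟩
        obtain ⟨u, hu⟩ := f7 x hx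
        rw [hu]
        exact (hW s (by omega)).2 x u hx.2
      have hdis : Disjoint (⋃ j, ⋃ (_ : j < s), B j) (B s) := by
        rw [disjoint_left]
        intro x hx hxs
        obtain ⟨i, h4⟩ := mem_iUnion.1 hx
        obtain ⟨h5, h6⟩ := mem_iUnion.1 h4
        exact disjoint_left.1 (hd i (by omega) s (by omega) (by omega)) h6 hxs
      have e : P ∩ ⋃ j, ⋃ (_ : j < s + 1), B j =
          (P ∩ ⋃ j, ⋃ (_ : j < s), B j) ∪ (P ∩ B s) := by
        rw [← inter_union_distrib_left]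
        congr 1
        ext x
        simp only [mem_iUnion, mem_union, exists_prop]
        constructor
        · rintro ⟨i, h5, h6⟩
          by_cases h7 : i = s
          · right; rwa [h7] at h6
          · exact Or.inl ⟨i, by omega, h6⟩
        · rintro (⟨i, h5, h6⟩ | h5)
          · exact ⟨i, by omega, h6⟩
          · exact ⟨s, by omega, h5⟩
      have hd1 : Disjoint (P ∩ ⋃ j, ⋃ (_ : j < s), B j) (P ∩ B s) :=
        hdis.mono inter_subset_right inter_subset_right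
      have hd2 : Disjoint P' Q := hdis.mono a6 hQ
      rw [e]
      refine ⟨P' ∪ Q, cob_union a1 b1 hd2, cob_union a2 hcs hd1,
        ht_union a2 hcs hd1 hd2 a3 b2.ht, morse_union a1 b1 hd2 a4 b3, ?_, ?_⟩
      · refine nmin_union.trans ((add_le_add a5 b4).trans ?_)
        rw [Finset.sum_range_succ]
        push_cast
        exact le_rfl
      · rintro x (hx | hx)
        · obtain ⟨i, h4⟩ := mem_iUnion.1 (a6 hx)
          obtain ⟨h5, h6⟩ := mem_iUnion.1 h4
          exact mem_iUnion.2 ⟨i, mem_iUnion.2 ⟨by omega, h6⟩⟩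
        · exact mem_iUnion.2 ⟨s, mem_iUnion.2 ⟨by omega, hQ hx⟩⟩
  obtain ⟨P', a1, -, a3, a4, a5, -⟩ := key r le_rfl
  rw [inter_eq_left.2 hcov] at a3
  exact ⟨P', a1, a3, a4, a5⟩

/-! ### Composition -/

/-- The part of the surface between the levels `a` and `b`, translated to the level zero. -/
def cut (F : Set E4) (a b : ℝ) : Set E4 := lo (hi F a) (b - a)

/-- `P` can be replaced by a surface with Morse height and at most `m` local minima. -/
def Rep (P : Set E4) (H : ℝ) (m : ℕ) : Prop :=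
  ∃ F' H', Cob F' H' ∧ HT P H F' H' ∧ MorseF F' H' ∧ nminF F' H' ≤ m

theorem hi_zero {F : Set E4} {H : ℝ} (hF : Cob F H) : hi F 0 = F := by
  ext x
  rw [mem_hi, zero_smul, add_zero]
  exact ⟨fun h => h.1, fun h => ⟨h, (hF.sub h).1⟩⟩

theorem hi_hi (F : Set E4) {a b : ℝ} (hab : a ≤ b) : hi (hi F a) (b - a) = hi F b := by
  ext x
  rw [mem_hi, mem_hi, mem_hi, avt]
  have e : x + (b - a) • vert + a • vert = x + b • vert := by module
  rw [e]
  constructor
  · rintro ⟨⟨h1, -⟩, h2⟩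
    exact ⟨h1, h2⟩
  · rintro ⟨h1, h2⟩
    exact ⟨⟨h1, by linarith⟩, h2⟩

theorem lo_full {F : Set E4} {H : ℝ} (hF : Cob F H) : lo F H = F :=
  inter_eq_left.2 fun _ hx => (hF.sub hx).2

theorem compose2 (n : ℕ) : ∀ (F : Set E4) (H : ℝ) (t : ℕ → ℝ) (m : ℕ → ℕ), Cob F H → t 0 = 0 →
    t (n + 1) = H → (∀ i ≤ n, t i < t (i + 1)) → (∀ i < n, VertAt F (t (i + 1))) →
    (∀ i ≤ n, Rep (cut F (t i) (t (i + 1))) (t (i + 1) - t i) (m i)) →
    Rep F H (∑ i ∈ Finset.range (n + 1), m i) := by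
  induction n with
  | zero =>
    intro F H t m hF h0 h1 hlt hv hp
    have h2 := hp 0 le_rfl
    rw [h0, zero_add] at h2
    rw [zero_add] at h1
    rw [h1, sub_zero] at h2
    unfold cut at h2
    rw [sub_zero, hi_zero hF, lo_full hF] at h2
    simpa using h2
  | succ n ih =>
    intro F H t m hF h0 h1 hlt hv hp
    have ha : 0 < t 1 := by
      have := hlt 0 (Nat.zero_le _)
      rwa [h0] at this
    have hmono : ∀ j, j ≤ n → t 1 < t (j + 2) := by
      intro j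
      induction j with
      | zero => intro _; exact hlt 1 (by omega)
      | succ j ihj =>
        intro hj
        exact (ihj (by omega)).trans (hlt (j + 2) (by omega))
    have haH : t 1 < H := by
      rw [← h1]
      exact hmono n le_rfl
    have hva : VertAt F (t 1) := hv 0 (by omega)
    have hlo := cob_lo hF ha haH hva
    have hhi := cob_hi hF ha haH hva
    have hle : ∀ i, i ≤ n → t 1 ≤ t (i + 1) := by
      intro i hi
      rcases i with _ | i
      · exact le_rfl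
      · exact (hmono i (by omega)).le
    have hp0 : Rep (lo F (t 1)) (t 1) (m 0) := by
      have h2 := hp 0 (by omega)
      rw [h0, zero_add, sub_zero] at h2
      unfold cut at h2
      rwa [sub_zero, hi_zero hF] at h2
    obtain ⟨F', H', a1, a2, a3, a4⟩ := hp0
    obtain ⟨G', K', b1, b2, b3, b4⟩ := ih (hi F (t 1)) (H - t 1) (fun i => t (i + 1) - t 1)
      (fun i => m (i + 1)) hhi (by simp) (by rw [← h1])
      (fun i hi => by
        have := hlt (i + 1) (by omega)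
        show t (i + 1) - t 1 < t (i + 1 + 1) - t 1
        linarith)
      (fun i hi => vert_hi (hmono i (by omega)) (hv (i + 1) (by omega)))
      (fun i hin => by
        have h2 := hp (i + 1) (by omega)
        unfold cut at h2 ⊢
        show Rep (lo (hi (hi F (t 1)) (t (i + 1) - t 1)) (t (i + 1 + 1) - t 1 - (t (i + 1) - t 1)))
          (t (i + 1 + 1) - t 1 - (t (i + 1) - t 1)) (m (i + 1))
        rw [hi_hi F (hle i hin), sub_sub_sub_cancel_right]
        exact h2)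
    have hm := (match_lo_hi (F := F) (a := t 1)).transfer a2 b2
    refine ⟨F' ∪ up H' G', H' + K', cob_glue a1 b1 hm, ?_, morse_glue a1 b1 hm a3 b3, ?_⟩
    · have h2 := HT.glue hlo hhi match_lo_hi a1 b1 a2 b2
      rw [lo_union_hi, add_sub_cancel] at h2
      exact h2
    · refine (nmin_glue a1 b1 hm).trans ((add_le_add a4 b4).trans ?_)
      rw [Finset.sum_range_succ' (fun i => m i) (n + 1), add_comm]
      push_cast
      exact le_rfl

theorem cob_cut {F : Set E4} {H a b : ℝ} (hF : Cob F H) (ha : 0 ≤ a) (hab : a < b) (hb : b ≤ H)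
    (hva : a = 0 ∨ VertAt F a) (hvb : b = H ∨ VertAt F b) : Cob (cut F a b) (b - a) := by
  unfold cut
  have h1 : Cob (hi F a) (H - a) := by
    rcases eq_or_lt_of_le ha with h | h
    · rw [← h, hi_zero hF, sub_zero]
      exact hF
    · exact cob_hi hF h (hab.trans_le hb) (hva.resolve_left h.ne')
  rcases eq_or_lt_of_le hb with h | h
  · rw [h, lo_full h1]
    exact h1
  · exact cob_lo h1 (by linarith) (by linarith) (vert_hi hab (hvb.resolve_left h.ne))

/-- Disjoint open sets `B j = B' j × ℝ`, `j < r`, which cover the part of the surface `F` between the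
levels `a` and `b`. -/
structure Cells (F : Set E4) (a b : ℝ) (r : ℕ) (B : ℕ → Set E4) : Prop where
  wall : ∀ j < r, Wall (B j)
  disj : ∀ i < r, ∀ j < r, i ≠ j → Disjoint (B i) (B j)
  cover : ∀ x ∈ F, a ≤ x 3 → x 3 ≤ b → ∃ j < r, x ∈ B j

theorem rep_cut {F : Set E4} {H a b : ℝ} (hF : Cob F H) (ha : 0 ≤ a) (hab : a < b) (hb : b ≤ H)
    (hva : a = 0 ∨ VertAt F a) (hvb : b = H ∨ VertAt F b) {r : ℕ} {B : ℕ → Set E4} {m : ℕ → ℕ}
    (hC : Cells F a b r B)
    (hlow : ∀ j < r, lowP (F ∩ B j) a b < ENNReal.ofReal (Real.pi ^ 2 * (m j + 1))) :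
    Rep (cut F a b) (b - a) (∑ j ∈ Finset.range r, m j) := by
  have hc := cob_cut hF ha hab hb hva hvb
  have hmem : ∀ x : E4, x ∈ cut F a b ↔ (x + a • vert ∈ F ∧ 0 ≤ x 3) ∧ x 3 ≤ b - a := by
    intro x
    unfold cut lo
    rw [mem_inter_iff, mem_hi]
    rfl
  obtain ⟨P', a1, a2, a3, a4⟩ := rep_cells hc r B m hC.wall hC.disj (by
    intro x hx
    obtain ⟨⟨h1, h2⟩, h3⟩ := (hmem x).1 hx
    obtain ⟨j, hj, hj2⟩ := hC.cover _ h1 (by rw [avt]; linarith) (by rw [avt]; linarith)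
    rw [(hC.wall j hj).iff] at hj2
    exact mem_iUnion.2 ⟨j, mem_iUnion.2 ⟨hj, hj2⟩⟩) (by
    intro j hj
    refine lt_of_le_of_lt ?_ (hlow j hj)
    rw [low_part]
    have h := part_le tinv_L (F := F ∩ B j) (F' := cut F a b ∩ B j) (a := a) (b := a) (c := b)
      (fun x h1 h2 => by
        rw [mem_inter_iff, mem_inter_iff, (hC.wall j hj).iff, hmem, avt]
        have e : x + (-a) • vert + a • vert = x := by rw [neg_smul, neg_add_cancel_right]
        rw [e]
        constructor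
        · rintro ⟨h3, h4⟩
          exact ⟨⟨⟨h3, by linarith⟩, by linarith⟩, h4⟩
        · rintro ⟨⟨⟨h3, -⟩, -⟩, h4⟩
          exact ⟨h3, h4⟩)
    rwa [sub_self] at h)
  exact ⟨P', 1, a1, a2, a3, a4⟩

/-- Surfaces in the half-space cut into cells. -/
theorem half_cells (S : Type) [TopologicalSpace S] (K F : Set E4) (n : ℕ) (t : ℕ → ℝ)
    (r : ℕ → ℕ) (B : ℕ → ℕ → Set E4) (m : ℕ → ℕ → ℕ) (hF : HCls S K F) (hL : Levels F n t)
    (hC : ∀ i ≤ n, Cells F (t i) (t (i + 1)) (r i) (B i))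
    (hlow : ∀ i ≤ n, ∀ j < r i,
      lowP (F ∩ B i j) (t i) (t (i + 1)) < ENNReal.ofReal (Real.pi ^ 2 * (m i j + 1))) :
    ∃ F', HCls S K F' ∧ MorseS F' ∧
      nminS F' ≤ ((∑ i ∈ Finset.range (n + 1), ∑ j ∈ Finset.range (r i), m i j : ℕ) : ℕ∞) := by
  have hc := cob_of_lt hF.1 (top_pos hL) hL.top
  have hm0 : ∀ i, i ≤ n + 1 → 0 ≤ t i := by
    intro i
    induction i with
    | zero => intro _; rw [hL.zero]
    | succ i ih => intro hi; exact (ih (by omega)).trans (hL.lt i (by omega)).le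
  have hm1 : ∀ k i, i + k = n + 1 → t i ≤ t (n + 1) := by
    intro k
    induction k with
    | zero => intro i hi; rw [show i = n + 1 by omega]
    | succ k ih =>
      intro i hi
      exact (hL.lt i (by omega)).le.trans (ih (i + 1) (by omega))
  obtain ⟨F', H', a1, a2, a3, a4⟩ := compose2 n F (t (n + 1)) t
    (fun i => ∑ j ∈ Finset.range (r i), m i j) hc hL.zero rfl hL.lt hL.vert (fun i hi => by
      refine rep_cut hc (hm0 i (by omega)) (hL.lt i hi) (hm1 (n - i) (i + 1) (by omega)) ?_ ?_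
        (hC i hi) (hlow i hi)
      · rcases i with _ | i
        · exact Or.inl hL.zero
        · exact Or.inr (hL.vert i (by omega))
      · by_cases h : i = n
        · left; rw [h]
        · exact Or.inr (hL.vert i (by omega)))
  have hlt := half_back hL.top a2 a1
  obtain ⟨e⟩ := a2.homeo hc.compact
  obtain ⟨f⟩ := hF.2.2
  exact ⟨F', ⟨half_of a1 hlt, by rw [a2.bot]; exact hF.2.1, ⟨e.symm.trans f⟩⟩,
    (morse_eq hlt).1 a3, by rwa [← nmin_eq hlt]⟩

end Pool.Agent.U548.CC
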